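import Mathlib

/-!
# Interpolation: tensors, polynomial functionals, invariants

Everything in this file is elementary: families of mixed tensors, the action of a pair `(k, k')` of
mutually inverse matrices on them, the datum `Red n` of an invariant integral on a closed subgroup of
`GL_n`, and invariant polynomials.
-/

open MvPolynomial

namespace Pool.Agent.Lib.MP_666dc0_nt.IG

/-- A shape of a family of tensors: a set `β` of types; a tensor of type `b` has `p b` upper and
`q b` lower indices, and there is one such tensor for each element of `C b`. -/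
structure Shape : Type 1 where
  β : Type
  p : β → ℕ
  q : β → ℕ
  C : β → Type

/-- The set of coordinates of a family of tensors of shape `s` on an `n`-dimensional space. -/
def Shape.Ix (s : Shape) (n : ℕ) : Type :=
  Σ b : s.β, s.C b × (Fin (s.p b) → Fin n) × (Fin (s.q b) → Fin n)

/-- A shape is finite if there are finitely many tensors. -/
class Shape.Small (s : Shape) where
  fβ : Fintype s.β
  fC : ∀ b, Fintype (s.C b)

attribute [instance_reducible, instance] Shape.Small.fβ Shape.Small.fC

variable {A : Type} [CommRing A] {n : ℕ} {s : Shape}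

/-- The action of `(k, k')` (think of `k' = k⁻¹`) on families of tensors. -/
def act (k k' : Matrix (Fin n) (Fin n) A) (t : s.Ix n → A) : s.Ix n → A := fun x =>
  ∑ L : Fin (s.p x.1) → Fin n, ∑ M : Fin (s.q x.1) → Fin n,
    (∏ i, k (x.2.2.1 i) (L i)) * (∏ j, k' (M j) (x.2.2.2 j)) * t ⟨x.1, x.2.1, L, M⟩

/-- The weight of a coordinate. -/
def wt (lam : Fin n → ℝ) (x : s.Ix n) : ℝ := ∑ i, lam (x.2.2.1 i) - ∑ j, lam (x.2.2.2 j)

/-- The matrices `M` for which `t^lam M t^(-lam)` has a limit for `t → 0`. -/
def InP (lam : Fin n → ℝ) (M : Matrix (Fin n) (Fin n) A) : Prop := ∀ a b, M a b ≠ 0 → lam b ≤ lam a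

/-- Linear combinations of the tensors of the same type in a family. -/
def mix [∀ b, Fintype (s.C b)] (D : (b : s.β) → s.C b → s.C b → A) (t : s.Ix n → A) : s.Ix n → A :=
  fun x => ∑ c, D x.1 x.2.1 c * t ⟨x.1, c, x.2.2⟩

open Classical in
/-- Replace by zero all tensors of the types in `thr`. -/
noncomputable def kill (thr : s.β → Prop) (t : s.Ix n → A) : s.Ix n → A :=
  fun x => if thr x.1 then 0 else t x

/-- The part of weight zero. -/
noncomputable def wtZero (lam : Fin n → ℝ) (t : s.Ix n → A) : s.Ix n → A :=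
  fun x => if wt lam x = 0 then t x else 0

/-- The shape of a family of matrices. -/
def mats (M : Type) : Shape := ⟨Unit, fun _ => 1, fun _ => 1, fun _ => M⟩

/-- A family of matrices as a family of tensors. -/
def toMats {M : Type} (v : M → Matrix (Fin n) (Fin n) A) : (mats M).Ix n → A
  | ⟨_, m, I, J⟩ => v m (I (0 : Fin 1)) (J (0 : Fin 1))

/-- The shape of a family of matrices together with a family of tensors. -/
def tot (M : Type) (s : Shape) : Shape :=
  ⟨Unit ⊕ s.β, Sum.elim (fun _ => 1) s.p, Sum.elim (fun _ => 1) s.q, Sum.elim (fun _ => M) s.C⟩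

/-- A family of matrices together with a family of tensors. -/
def toTot {M : Type} (v : M → Matrix (Fin n) (Fin n) A) (t : s.Ix n → A) : (tot M s).Ix n → A
  | ⟨Sum.inl _, m, I, J⟩ => v m (I (0 : Fin 1)) (J (0 : Fin 1))
  | ⟨Sum.inr b, c, I, J⟩ => t ⟨b, c, I, J⟩

/-- The types of `tot M s` coming from matrices. -/
def isMat {M : Type} {s : Shape} (b : (tot M s).β) : Prop := ∃ u : Unit, b = (Sum.inl u : Unit ⊕ s.β)

instance (M : Type) [Fintype M] : (mats M).Small where
  fβ := inferInstanceAs (Fintype Unit)
  fC := fun _ => inferInstanceAs (Fintype M)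

instance (M : Type) [Fintype M] (s : Shape) [s.Small] : (tot M s).Small where
  fβ := inferInstanceAs (Fintype (Unit ⊕ s.β))
  fC := fun b => match b with
    | Sum.inl _ => inferInstanceAs (Fintype M)
    | Sum.inr b => inferInstanceAs (Fintype (s.C b))

/-- The variables `X i j`, `X' i j` of the coordinate ring of the scheme of pairs of matrices. -/
abbrev PV (n : ℕ) : Type := (Fin n × Fin n) ⊕ (Fin n × Fin n)

/-- The point of the scheme of pairs of matrices given by `(k, k')`. -/
def evp (k k' : Matrix (Fin n) (Fin n) A) : PV n → A :=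
  Sum.elim (fun ij => k ij.1 ij.2) (fun ij => k' ij.1 ij.2)

/-- The generic matrix `X`. -/
noncomputable def gX (n : ℕ) (A : Type) [CommRing A] :
    Matrix (Fin n) (Fin n) (MvPolynomial (PV n) A) := Matrix.of fun i j => X (Sum.inl (i, j))

/-- The generic matrix `X'`. -/
noncomputable def gX' (n : ℕ) (A : Type) [CommRing A] :
    Matrix (Fin n) (Fin n) (MvPolynomial (PV n) A) := Matrix.of fun i j => X (Sum.inr (i, j))

/-- A matrix with entries in `A` as a matrix with constant polynomials as entries. -/
noncomputable def mC {τ : Type} (k : Matrix (Fin n) (Fin n) A) :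
    Matrix (Fin n) (Fin n) (MvPolynomial τ A) := k.map C

/-- `(k, k')` is an `A`-valued point of the closed subscheme given by the ideal `J`. -/
def InJ (J : Ideal (MvPolynomial (PV n) ℚ)) (A : Type) [CommRing A] [Algebra ℚ A]
    (k k' : Matrix (Fin n) (Fin n) A) : Prop := ∀ p ∈ J, aeval (evp k k') p = 0

/-- Extension of scalars of a linear functional on polynomials. -/
noncomputable def IA (I : MvPolynomial (PV n) ℚ →ₗ[ℚ] ℚ) (A : Type) [CommRing A] [Algebra ℚ A] :
    MvPolynomial (PV n) A →ₗ[A] A :=
  (MvPolynomial.basisMonomials (PV n) A).constr A (fun m => algebraMap ℚ A (I (monomial m 1)))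

/-- A closed subgroup scheme of `GL_n` over `ℚ` (given by an ideal `J` of the ring of polynomials in
the entries of `X` and `X' = X⁻¹`) with a normalised invariant integral `I`. -/
structure Red (n : ℕ) : Type 1 where
  J : Ideal (MvPolynomial (PV n) ℚ)
  I : MvPolynomial (PV n) ℚ →ₗ[ℚ] ℚ
  I_one : I 1 = 1
  I_J : ∀ p ∈ J, I p = 0
  in_inv : ∀ (A : Type) [CommRing A] [Algebra ℚ A] (k k' : Matrix (Fin n) (Fin n) A),
    InJ J A k k' → k * k' = 1 ∧ k' * k = 1
  in_one : ∀ (A : Type) [CommRing A] [Algebra ℚ A], InJ J A 1 1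
  in_mul : ∀ (A : Type) [CommRing A] [Algebra ℚ A] (k k' h h' : Matrix (Fin n) (Fin n) A),
    InJ J A k k' → InJ J A h h' → InJ J A (k * h) (h' * k')
  in_symm : ∀ (A : Type) [CommRing A] [Algebra ℚ A] (k k' : Matrix (Fin n) (Fin n) A),
    InJ J A k k' → InJ J A k' k
  right_inv : ∀ (A : Type) [CommRing A] [Algebra ℚ A] (k k' : Matrix (Fin n) (Fin n) A),
    InJ J A k k' → ∀ p : MvPolynomial (PV n) ℚ,
      IA I A (aeval (evp (gX n A * mC k) (mC k' * gX' n A)) p) = algebraMap ℚ A (I p)

/-- `(k, k')` is an `A`-valued point of the group `G`. -/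
def Red.In (G : Red n) (A : Type) [CommRing A] [Algebra ℚ A] (k k' : Matrix (Fin n) (Fin n) A) :
    Prop := InJ G.J A k k'

/-- A rational polynomial function of a family of tensors is invariant under the group `G`. -/
def IsInv (G : Red n) (p : MvPolynomial (s.Ix n) ℚ) : Prop :=
  ∀ (A : Type) [CommRing A] [Algebra ℚ A] (k k' : Matrix (Fin n) (Fin n) A), G.In A k k' →
    ∀ t : s.Ix n → A, aeval (act k k' t) p = aeval t p

/-- The Reynolds operator: the average of `p(k t)` over `k` in `G`. -/
noncomputable def Rey (G : Red n) {A : Type} [CommRing A] [Algebra ℚ A]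
    (p : MvPolynomial (s.Ix n) A) : MvPolynomial (s.Ix n) A :=
  IA G.I (MvPolynomial (s.Ix n) A)
    (aeval (act (gX n (MvPolynomial (s.Ix n) A)) (gX' n (MvPolynomial (s.Ix n) A))
      (fun x => C (X x))) p)

end Pool.Agent.Lib.MP_666dc0_nt.IG
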