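import Pool.Agent.Lib.MP_666dc0_nt.IG.Defs

/-!
# Interpolation: further definitions
-/

open MvPolynomial

namespace Pool.Agent.Lib.MP_666dc0_nt.IG

section T3

variable {A B : Type} [CommRing A] [CommRing B] {n : ℕ} {s : Shape}

/-- The block diagonal part of a matrix for the grading `lam`. -/
noncomputable def lv (lam : Fin n → ℝ) (M : Matrix (Fin n) (Fin n) A) : Matrix (Fin n) (Fin n) A :=
  Matrix.of fun a b => if lam a = lam b then M a b else 0

end T3

section R3

variable {A B : Type} [CommRing A] [CommRing B] [Algebra ℚ A] [Algebra ℚ B] {n : ℕ} {s : Shape}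

/-- The algebra of rational invariants. -/
def Inv (G : Red n) (s : Shape) : Subalgebra ℚ (MvPolynomial (s.Ix n) ℚ) where
  carrier := {p | IsInv G p}
  mul_mem' := fun {a b} ha hb A _ _ k k' hk t => by rw [map_mul, map_mul, ha A k k' hk, hb A k k' hk]
  add_mem' := fun {a b} ha hb A _ _ k k' hk t => by rw [map_add, map_add, ha A k k' hk, hb A k k' hk]
  algebraMap_mem' := fun q A _ _ k k' hk t => by
    rw [MvPolynomial.algebraMap_eq, aeval_C, aeval_C]

/-- Change of the set of matrices. For `i : M → M'` the polynomial `p` in the matrices `v m` is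
renamed to the polynomial `v' ↦ p(v' ∘ i)`. -/
def ixMap {M M' : Type} (i : M → M') : (mats M).Ix n → (mats M').Ix n
  | ⟨u, m, I, J⟩ => ⟨u, i m, I, J⟩

/-- Polynomials in the matrices only, inside the polynomials in matrices and tensors. -/
def ixL {M : Type} : (mats M).Ix n → (tot M s).Ix n
  | ⟨_, m, I, J⟩ => ⟨Sum.inl (), m, I, J⟩

/-- Polynomials in the tensors only. -/
def ixR {M : Type} : s.Ix n → (tot M s).Ix n
  | ⟨b, c, I, J⟩ => ⟨Sum.inr b, c, I, J⟩

end R3

section L1

variable {n : ℕ} {s : Shape}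

/-- The real number `r ≥ 0` as an element of `NNReal`, the diagonal matrix of a one-parameter group over
the group algebra `κ[ℝ]`. -/
noncomputable def dT (κ : Type) [Field κ] (lam : Fin n → ℝ) :
    Matrix (Fin n) (Fin n) (AddMonoidAlgebra κ ℝ) :=
  Matrix.diagonal fun a => AddMonoidAlgebra.single (lam a) 1

end L1

section W1

variable {n : ℕ} {s : Shape}

/-- The product of the matrices `v m` along a word. -/
def wordProd {A : Type} [CommRing A] {M : Type} (v : M → Matrix (Fin n) (Fin n) A) (l : List M) :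
    Matrix (Fin n) (Fin n) A := (l.map v).prod

/-- The generic matrix with index `m`. -/
noncomputable def gmat (n : ℕ) {M : Type} (m : M) :
    Matrix (Fin n) (Fin n) (MvPolynomial ((mats M).Ix n) ℚ) :=
  Matrix.of fun a b => X (⟨(), m, fun _ => a, fun _ => b⟩ : (mats M).Ix n)

/-- The trace of a word in generic matrices. -/
noncomputable def wtr (n : ℕ) {M : Type} (l : List M) : MvPolynomial ((mats M).Ix n) ℚ :=
  (wordProd (fun m => gmat n m) l).trace

end W1

section TI

variable {n : ℕ} {s : Shape}

/-- The condition on matrices `v m` (with inverses `v' m`) and tensors `T` in Theorem I. -/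
def TICond {K : Type} [CommRing K] [Algebra ℚ K] {M : Type} (s : Shape) [s.Small]
    (D : M → (b : s.β) → s.C b → s.C b → ℚ) (v : M ⊕ M → Matrix (Fin n) (Fin n) K)
    (T : s.Ix n → K) : Prop :=
  ∀ m, v (Sum.inl m) * v (Sum.inr m) = 1 ∧ v (Sum.inr m) * v (Sum.inl m) = 1 ∧
    act (v (Sum.inl m)) (v (Sum.inr m)) T = mix (fun b c c' => algebraMap ℚ K (D m b c c')) T

end TI

section E1

variable {n : ℕ} {s : Shape} {A : Type} [CommRing A] [Algebra ℚ A]

/-- The shape of a pair of matrices `(X, X')` on which the group acts by `(X k⁻¹, k X')`: the rows of `X` are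
`n` covectors (type `false`), the columns of `X'` are `n` vectors (type `true`). -/
def pairS (n : ℕ) : Shape := ⟨Bool, fun b => match b with | true => 1 | false => 0,
  fun b => match b with | true => 0 | false => 1, fun _ => Fin n⟩

instance (n : ℕ) : (pairS n).Small where
  fβ := inferInstanceAs (Fintype Bool)
  fC := fun _ => inferInstanceAs (Fintype (Fin n))

/-- A pair of matrices as a family of tensors. -/
def toPair (X X' : Matrix (Fin n) (Fin n) A) : (pairS n).Ix n → A
  | ⟨true, c, I, _⟩ => X' (I (0 : Fin 1)) c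
  | ⟨false, c, _, J⟩ => X c (J (0 : Fin 1))

/-- The average of a product of entries of `X' = g⁻¹` and `X = g` over the group. For index functions
`j : Fin p → Fin n`, `i : Fin q → Fin n` this is a mixed tensor with `p` upper, `q` lower indices. -/
noncomputable def avT (G : Red n) {p q : ℕ} (j : Fin p → Fin n) (i : Fin q → Fin n)
    (L : Fin p → Fin n) (M : Fin q → Fin n) : ℚ :=
  G.I ((∏ a, gX' n ℚ (L a) (j a)) * ∏ b, gX n ℚ (i b) (M b))

end E1

section E3

variable {n : ℕ}

/-- Rational tensors as tensors over `A`. -/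
def inA {s : Shape} (A : Type) [CommRing A] [Algebra ℚ A] (T : s.Ix n → ℚ) : s.Ix n → A :=
  fun x => algebraMap ℚ A (T x)

/-- A finite family of rational tensors which describes the homogeneous space `GL_n / G`. -/
structure TensorData (G : Red n) : Type 1 where
  s : Shape
  small : s.Small
  T₀ : s.Ix n → ℚ
  fix : ∀ (A : Type) [CommRing A] [Algebra ℚ A] (k k' : Matrix (Fin n) (Fin n) A), G.In A k k' →
    act k k' (inA A T₀) = inA A T₀
  gen : ∀ (υ : Type) (q : MvPolynomial (PV n ⊕ υ) ℚ),
    (∀ (A : Type) [CommRing A] [Algebra ℚ A] (k k' g g' : Matrix (Fin n) (Fin n) A) (w : υ → A),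
      k * k' = 1 → k' * k = 1 → G.In A g g' →
      aeval (Sum.elim (evp (k * g) (g' * k')) w) q = aeval (Sum.elim (evp k k') w) q) →
    ∃ f : MvPolynomial (s.Ix n ⊕ υ) ℚ, ∀ (A : Type) [CommRing A] [Algebra ℚ A]
      (k k' : Matrix (Fin n) (Fin n) A) (w : υ → A), k * k' = 1 → k' * k = 1 →
      aeval (Sum.elim (act k k' (inA A T₀)) w) f = aeval (Sum.elim (evp k k') w) q
  norm : ∀ P P' : Matrix (Fin n) (Fin n) ℚ, P * P' = 1 → P' * P = 1 →
    (∀ (A : Type) [CommRing A] [Algebra ℚ A] (k k' : Matrix (Fin n) (Fin n) A), G.In A k k' →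
      G.In A (P.map (algebraMap ℚ A) * k * P'.map (algebraMap ℚ A))
        (P.map (algebraMap ℚ A) * k' * P'.map (algebraMap ℚ A))) →
    ∃ D : (b : s.β) → s.C b → s.C b → ℚ, act P P' T₀ = mix D T₀

attribute [instance] TensorData.small

/-- The space of invariant mixed tensors with `p` upper and `q` lower indices. -/
def invT (G : Red n) (p q : ℕ) : Submodule ℚ ((Fin p → Fin n) × (Fin q → Fin n) → ℚ) where
  carrier := {T | ∀ (A : Type) [CommRing A] [Algebra ℚ A] (h h' : Matrix (Fin n) (Fin n) A),
    G.In A h h' → ∀ L M, ∑ L' : Fin p → Fin n, ∑ M' : Fin q → Fin n,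
      (∏ a, h (L a) (L' a)) * (∏ b, h' (M' b) (M b)) * algebraMap ℚ A (T (L', M')) =
      algebraMap ℚ A (T (L, M))}
  add_mem' := by
    intro T U hT hU A _ _ h h' hh L M
    have h1 := hT A h h' hh L M
    have h2 := hU A h h' hh L M
    simp only [Pi.add_apply, map_add, mul_add, Finset.sum_add_distrib, h1, h2]
  zero_mem' := by
    intro A _ _ h h' hh L M
    simp
  smul_mem' := by
    intro c T hT A _ _ h h' hh L M
    have h1 := hT A h h' hh L M
    simp only [Pi.smul_apply, smul_eq_mul, map_mul]
    rw [← h1, Finset.mul_sum]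
    refine Finset.sum_congr rfl fun L' _ => ?_
    rw [Finset.mul_sum]
    refine Finset.sum_congr rfl fun M' _ => ?_
    ring

end E3

end Pool.Agent.Lib.MP_666dc0_nt.IG
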