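import Pool.Agent.Lib.MP_666dc0_nt.Mg.G017
import Pool.Agent.Lib.MP_666dc0_nt.Mg.G016
import Pool.Agent.Lib.MP_666dc0_nt.Mg.G015

open MvPolynomial

namespace Pool.Agent.Lib.MP_666dc0_nt.IG

variable {A B : Type} [CommRing A] [CommRing B] [Algebra ℚ A] [Algebra ℚ B] {n : ℕ} {s : Shape}

private theorem R2b_ev {R S S' : Type} [CommRing R] [CommRing S] [CommRing S'] [Algebra R S]
    [Algebra R S'] [Algebra S S'] (hf : (algebraMap S S').comp (algebraMap R S) = algebraMap R S')
    (k k' : Matrix (Fin n) (Fin n) S') (u : s.Ix n → S) (p : MvPolynomial (s.Ix n) R) :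
    aeval (R := S) (evp k k') (aeval (act (gX n S) (gX' n S) (fun x => C (u x))) p) =
      aeval (act k k' (fun x => algebraMap S S' (u x))) p := by
  have hact : ∀ x : s.Ix n, aeval (R := S) (evp k k') (act (gX n S) (gX' n S) (fun x => C (u x)) x) =
      act k k' (fun x => algebraMap S S' (u x)) x := by
    intro x
    have h := map_act ((aeval (R := S) (evp k k') : MvPolynomial (PV n) S →ₐ[S] S') :
      MvPolynomial (PV n) S →+* S') (gX n S) (gX' n S) (fun x => C (u x)) x
    refine h.trans ?_
    have h1 : (gX n S).map ((aeval (R := S) (evp k k') : MvPolynomial (PV n) S →ₐ[S] S') :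
      MvPolynomial (PV n) S →+* S') = k := by
      ext i j
      exact aeval_X _ _
    have h2 : (gX' n S).map ((aeval (R := S) (evp k k') : MvPolynomial (PV n) S →ₐ[S] S') :
      MvPolynomial (PV n) S →+* S') = k' := by
      ext i j
      exact aeval_X _ _
    rw [h1, h2]
    congr 1
    funext y
    exact aeval_C _ _
  induction p using MvPolynomial.induction_on with
  | C a =>
    rw [aeval_C, aeval_C, MvPolynomial.algebraMap_apply, aeval_C, ← hf]
    rfl
  | add p q hp hq => rw [map_add, map_add, hp, hq, map_add]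
  | mul_X p x hp => rw [map_mul, map_mul, hp, map_mul, aeval_X, aeval_X, hact]

/-- The Reynolds operator produces invariants. For a point `(k, k')` of `G` over `A` and `t : s.Ix n → A`,
`aeval_Rey` gives `aeval (act k k' t) (Rey G p) = IA (aeval (act X X' (act k k' t)) p)`; now
`act X X' (act k k' t) = act (X k) (k' X') t` (`act_mul`) and `IA_right` applied to the polynomial
`aeval (act X X' (C ∘ t)) p` shows that the value is `aeval t (Rey G p)`. -/
theorem isInv_Rey (G : Red n) (p : MvPolynomial (s.Ix n) ℚ) : IsInv G (Rey G p) := by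
  intro A _ _ k k' hk t
  rw [aeval_Rey, aeval_Rey]
  rw [← IA_right G k k' hk (aeval (act (gX n A) (gX' n A) (fun x => C (t x))) p)]
  congr 1
  rw [R2b_ev (S := A) (S' := MvPolynomial (PV n) A) (Subsingleton.elim _ _)]
  have h1 : (fun x => (C (act k k' t x) : MvPolynomial (PV n) A)) =
      act (mC k) (mC k') (fun x => C (t x)) := by
    funext x
    exact map_act (C : A →+* MvPolynomial (PV n) A) k k' t x
  rw [h1, ← act_mul]
  rfl

/-- The module property: for an invariant `p` (with rational coefficients) and `q` over `A`,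
`Rey (p q) = p Rey q`. The difference `aeval (act X X' (C ∘ X)) p - C p` vanishes at all points of `G`
with values in algebras over `MvPolynomial (s.Ix n) A` (invariance of `p`), so `IA_vanish` applies to
its product with the other factor. -/
theorem Rey_mul_of_isInv (G : Red n) {p : MvPolynomial (s.Ix n) ℚ} (hp : IsInv G p)
    (q : MvPolynomial (s.Ix n) A) :
    Rey G (MvPolynomial.map (algebraMap ℚ A) p * q) =
      MvPolynomial.map (algebraMap ℚ A) p * Rey G q := by
  have key : IA G.I (MvPolynomial (s.Ix n) A)
      ((aeval (act (gX n (MvPolynomial (s.Ix n) A)) (gX' n (MvPolynomial (s.Ix n) A))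
        (fun x => C (X x))) (MvPolynomial.map (algebraMap ℚ A) p) -
          C (MvPolynomial.map (algebraMap ℚ A) p)) *
        (aeval (act (gX n (MvPolynomial (s.Ix n) A)) (gX' n (MvPolynomial (s.Ix n) A))
          (fun x => C (X x))) q)) = 0 := by
    apply IA_vanish
    intro A' _ _ _ k k' hk
    rw [map_mul, map_sub, aeval_C]
    have h1 : aeval (act (gX n (MvPolynomial (s.Ix n) A)) (gX' n (MvPolynomial (s.Ix n) A))
        (fun x => C (X x))) (MvPolynomial.map (algebraMap ℚ A) p) =
        aeval (act (gX n (MvPolynomial (s.Ix n) A)) (gX' n (MvPolynomial (s.Ix n) A))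
        (fun x => C (X x))) p := MvPolynomial.aeval_map_algebraMap _ _ _
    rw [h1, R2b_ev (Subsingleton.elim _ _), hp A' k k' hk]
    have h2 : algebraMap (MvPolynomial (s.Ix n) A) A' (MvPolynomial.map (algebraMap ℚ A) p) =
        aeval (fun x => algebraMap (MvPolynomial (s.Ix n) A) A' (X x)) p := by
      clear h1
      clear hp
      induction p using MvPolynomial.induction_on with
      | C a =>
        rw [map_C, aeval_C]
        exact RingHom.map_rat_algebraMap ((algebraMap (MvPolynomial (s.Ix n) A) A').comp C) a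
      | add p q hp hq => rw [map_add, map_add, hp, hq, map_add]
      | mul_X p x hp => rw [map_mul, map_mul, hp, map_mul, aeval_X, map_X]
    rw [h2, sub_self, zero_mul]
  rw [sub_mul, map_sub, sub_eq_zero] at key
  unfold Rey
  rw [map_mul, key, ← smul_eq_C_mul, map_smul, smul_eq_mul]

theorem Rey_of_isInv (G : Red n) {p : MvPolynomial (s.Ix n) ℚ} (hp : IsInv G p) :
    Rey G p = p := by
  have h := Rey_mul_of_isInv (A := ℚ) G hp 1
  have h1 : MvPolynomial.map (algebraMap ℚ ℚ) p = p := MvPolynomial.map_id p
  rwa [Rey_one, h1, mul_one] at h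

end Pool.Agent.Lib.MP_666dc0_nt.IG
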