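import Pool.Agent.Lib.MP_666dc0_nt.IG.R2b

open MvPolynomial

namespace Pool.Agent.Lib.MP_666dc0_nt.IG

variable {A B : Type} [CommRing A] [CommRing B] [Algebra ℚ A] [Algebra ℚ B] {n : ℕ} {s : Shape}

/-- All coefficients are weighted homogeneous of degree `d`. -/
private def Good {σ τ : Type} {A : Type} [CommRing A] (W : σ → ℕ) (d : ℕ)
    (r : MvPolynomial τ (MvPolynomial σ A)) : Prop :=
  ∀ m, IsWeightedHomogeneous W (coeff m r) d

section good

variable {σ τ : Type} {A : Type} [CommRing A] {W : σ → ℕ}

private theorem Good.sum {ι : Type} {d : ℕ} (f : Finset ι)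
    (r : ι → MvPolynomial τ (MvPolynomial σ A)) (h : ∀ i ∈ f, Good W d (r i)) :
    Good W d (∑ i ∈ f, r i) := by
  intro m
  rw [coeff_sum]
  exact IsWeightedHomogeneous.sum f _ d fun i hi => h i hi m

private theorem Good.mul {d e : ℕ} {r r' : MvPolynomial τ (MvPolynomial σ A)} (h : Good W d r)
    (h' : Good W e r') : Good W (d + e) (r * r') := by
  classical
  intro m
  rw [coeff_mul]
  exact IsWeightedHomogeneous.sum _ _ _ fun x _ => (h x.1).mul (h' x.2)

private theorem Good.C {d : ℕ} {a : MvPolynomial σ A} (h : IsWeightedHomogeneous W a d) :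
    Good W d (MvPolynomial.C a : MvPolynomial τ (MvPolynomial σ A)) := by
  classical
  intro m
  rw [coeff_C]
  split_ifs
  · exact h
  · exact isWeightedHomogeneous_zero A W d

private theorem Good.one : Good W 0 (1 : MvPolynomial τ (MvPolynomial σ A)) := by
  rw [← MvPolynomial.C_1]
  exact Good.C (isWeightedHomogeneous_one A W)

private theorem Good.X (v : τ) : Good W 0 (MvPolynomial.X v : MvPolynomial τ (MvPolynomial σ A)) := by
  classical
  intro m
  rw [coeff_X]
  split_ifs
  · exact isWeightedHomogeneous_one A W
  · exact isWeightedHomogeneous_zero A W 0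

private theorem Good.prod {ι : Type} (f : Finset ι) (d : ι → ℕ)
    (r : ι → MvPolynomial τ (MvPolynomial σ A)) (h : ∀ i ∈ f, Good W (d i) (r i)) :
    Good W (∑ i ∈ f, d i) (∏ i ∈ f, r i) := by
  classical
  induction f using Finset.induction_on with
  | empty => simpa using Good.one
  | insert i f hi ih =>
    rw [Finset.sum_insert hi, Finset.prod_insert hi]
    exact (h i (Finset.mem_insert_self i f)).mul
      (ih fun j hj => h j (Finset.mem_insert_of_mem hj))

private theorem Good.pow {d : ℕ} {r : MvPolynomial τ (MvPolynomial σ A)} (h : Good W d r) (k : ℕ) :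
    Good W (k * d) (r ^ k) := by
  induction k with
  | zero => simpa using Good.one
  | succ k ih =>
    rw [pow_succ, Nat.succ_mul]
    exact ih.mul h

end good

/-- The Reynolds operator respects degrees which only depend on the type of the tensor: every coordinate
of `act X X' t` of type `b` is a linear form in the coordinates of `t` of type `b` (with coefficients in
`MvPolynomial (PV n) _`), so `aeval (act X X' (C ∘ X)) p` has coefficients (as polynomial in the variables
`PV n`) weighted homogeneous of degree `d`; `IA` is a linear combination of these coefficients. -/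
theorem Rey_homog (G : Red n) (w : s.β → ℕ) (p : MvPolynomial (s.Ix n) A) (d : ℕ)
    (hp : IsWeightedHomogeneous (fun x : s.Ix n => w x.1) p d) :
    IsWeightedHomogeneous (fun x : s.Ix n => w x.1) (Rey G p) d := by
  classical
  unfold Rey
  set W : s.Ix n → ℕ := fun x => w x.1 with hW
  set F : s.Ix n → MvPolynomial (PV n) (MvPolynomial (s.Ix n) A) :=
    act (gX n (MvPolynomial (s.Ix n) A)) (gX' n (MvPolynomial (s.Ix n) A)) (fun x => C (X x)) with hF
  have hFg : ∀ x, Good W (W x) (F x) := by
    intro x
    rw [hF]
    unfold act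
    refine Good.sum _ _ fun L _ => Good.sum _ _ fun M _ => ?_
    have h1 : Good W 0 (∏ i, (gX n (MvPolynomial (s.Ix n) A)) (x.2.2.1 i) (L i)) := by
      have := Good.prod (W := W) Finset.univ (fun _ => 0)
        (fun i => (gX n (MvPolynomial (s.Ix n) A)) (x.2.2.1 i) (L i)) (fun i _ => Good.X _)
      simpa using this
    have h2 : Good W 0 (∏ j, (gX' n (MvPolynomial (s.Ix n) A)) (M j) (x.2.2.2 j)) := by
      have := Good.prod (W := W) Finset.univ (fun _ => 0)
        (fun j => (gX' n (MvPolynomial (s.Ix n) A)) (M j) (x.2.2.2 j)) (fun i _ => Good.X _)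
      simpa using this
    have h3 : Good W (W x) (C (X (⟨x.1, x.2.1, L, M⟩ : s.Ix n)) :
        MvPolynomial (PV n) (MvPolynomial (s.Ix n) A)) :=
      Good.C (isWeightedHomogeneous_X A W _)
    have := (h1.mul h2).mul h3
    simpa using this
  have hg : Good W d (aeval F p) := by
    rw [aeval_def, eval₂_eq]
    refine Good.sum _ _ fun m hm => ?_
    have h1 : Good W 0 (algebraMap A (MvPolynomial (PV n) (MvPolynomial (s.Ix n) A)) (coeff m p)) :=
      Good.C (isWeightedHomogeneous_C W _)
    have h2 := Good.prod (W := W) m.support (fun i => m i * W i) (fun i => F i ^ m i)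
      (fun i _ => (hFg i).pow (m i))
    have h3 : ∑ i ∈ m.support, m i * W i = d := by
      rw [← hp (mem_support_iff.mp hm), Finsupp.weight_apply]
      rfl
    rw [h3] at h2
    simpa using h1.mul h2
  have hsum : aeval F p = ∑ m ∈ (aeval F p).support, monomial m (coeff m (aeval F p)) :=
    (support_sum_monomial_coeff _).symm
  rw [hsum, map_sum]
  refine IsWeightedHomogeneous.sum _ _ d fun m _ => ?_
  rw [IA_monomial]
  have := (hg m).mul (isWeightedHomogeneous_C W (algebraMap ℚ A (G.I (monomial m 1))))
  rw [add_zero] at this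
  exact this

/-- The components of an invariant are invariant: `p = Rey p = ∑ Rey (component)`, compare degrees with
`Rey_homog`, and use `isInv_Rey`. -/
theorem isInv_component (G : Red n) (w : s.β → ℕ) (p : MvPolynomial (s.Ix n) ℚ) (hp : IsInv G p)
    (d : ℕ) : IsInv G (weightedHomogeneousComponent (fun x : s.Ix n => w x.1) d p) := by
  classical
  set W : s.Ix n → ℕ := fun x => w x.1 with hW
  have h1 : p = ∑ e ∈ (weightedHomogeneousComponent_finsupp (w := W) p).toFinset,
      weightedHomogeneousComponent W e p := by
    conv_lhs => rw [← sum_weightedHomogeneousComponent W p]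
    exact finsum_eq_sum _ _
  have h2 : weightedHomogeneousComponent W d p =
      ∑ e ∈ (weightedHomogeneousComponent_finsupp (w := W) p).toFinset,
        if d = e then Rey G (weightedHomogeneousComponent W d p) else 0 := by
    conv_lhs => rw [← Rey_of_isInv G hp, h1, Rey_sum, map_sum]
    refine Finset.sum_congr rfl fun e _ => ?_
    have h3 := Rey_homog G w (weightedHomogeneousComponent W e p) e
      (weightedHomogeneousComponent_isWeightedHomogeneous e p)
    split_ifs with h
    · subst h
      exact h3.weightedHomogeneousComponent_same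
    · exact h3.weightedHomogeneousComponent_ne d h
  rw [Finset.sum_ite_eq] at h2
  rw [h2]
  split_ifs
  · exact isInv_Rey G _
  · exact (Inv G s).zero_mem

end Pool.Agent.Lib.MP_666dc0_nt.IG
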