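import Pool.Agent.Lib.MP_666dc0_nt.InterpZDefs
import Pool.Agent.Lib.MP_666dc0_nt.Mg.G015

namespace Pool.Agent.Lib.MP_666dc0_nt.IG

variable {B : Type} [CommRing B] [IsDomain B] [IsPrincipalIdealRing B] {O : Type} [CommRing O]
  [HopfAlgebra B O] {Γ : Type} [Group Γ] {A : OverB.HopfAction B Γ O}

/-- A finite set of generators of `O`, enlarged to a stable finite set `Φ` (`OverB.exists_stable`),
`OverB.exists_matRepL`: the matrix coefficients span a space containing `Φ`, so `b = 1` works. -/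
theorem exists_faithful_Z [Algebra.FiniteType B O] [Module.Free B O] [TopologicalSpace Γ]
    [IsTopologicalGroup Γ] [CompactSpace Γ] (hA : IsOpen (A.act.ker : Set Γ)) :
    ∃ (n : ℕ) (ρ : OverB.MatRep A n), OverB.IsFaithfulRep ρ := by
  obtain ⟨Φ₀, hΦ₀⟩ := (Algebra.FiniteType.out : (⊤ : Subalgebra B O).FG)
  obtain ⟨Φ, hΦfin, hΦ₀Φ, hΦst⟩ := OverB.exists_stable (A := A) hA Φ₀.finite_toSet
  obtain ⟨n, ρ, hρ, -⟩ := OverB.exists_matRepL A hΦfin hΦst
  refine ⟨n, ρ.toMatRep, fun f => ⟨1, one_ne_zero, ?_⟩⟩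
  rw [one_smul]
  have h0 : (⊤ : Subalgebra B O) ≤ Algebra.adjoin B ({f | ∃ i j, f = ρ.toMatRep.a i j} ∪
      {f | ∃ i j, f = HopfAlgebra.antipode B (ρ.toMatRep.a i j)}) := by
    rw [← hΦ₀, Algebra.adjoin_le_iff]
    intro f hf
    have h1 := hρ f (hΦ₀Φ hf)
    have h2 : Submodule.span B (Set.range fun ij : Fin n × Fin n => ρ.a ij.1 ij.2) ≤
        Subalgebra.toSubmodule (Algebra.adjoin B ({f | ∃ i j, f = ρ.toMatRep.a i j} ∪
          {f | ∃ i j, f = HopfAlgebra.antipode B (ρ.toMatRep.a i j)})) := by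
      rw [Submodule.span_le]
      rintro _ ⟨ij, rfl⟩
      exact Algebra.subset_adjoin (Or.inl ⟨_, _, rfl⟩)
    exact h2 h1
  exact h0 Algebra.mem_top

end Pool.Agent.Lib.MP_666dc0_nt.IG
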