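import Pool.Agent.Lib.MP_666dc0_nt.IG.F0a

open MvPolynomial

namespace Pool.Agent.Lib.MP_666dc0_nt.IG

variable {O : Type} [CommRing O] [HopfAlgebra ℚ O] {Γ : Type} [Group Γ] {A : HopfAction Γ O}
  {n : ℕ} (ρ : MatRep A n)

/-- The representation `ev ∘ r` with extended coefficients. -/
noncomputable def evM {Ω : Type} [CommRing Ω] [Algebra ℚ Ω] (r : Γ →* A.LGroup Ω) (κ : Type)
    [CommRing κ] [Algebra Ω κ] (γ : Γ) : Matrix (Fin n) (Fin n) κ :=
  (ρ.ev Ω (r γ)).map (algebraMap Ω κ)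

/-- The span of the matrices `ev (r γ)` over `κ`. -/
noncomputable def spA {Ω : Type} [CommRing Ω] [Algebra ℚ Ω] (r : Γ →* A.LGroup Ω) (κ : Type)
    [CommRing κ] [Algebra Ω κ] : Submodule κ (Matrix (Fin n) (Fin n) κ) :=
  Submodule.span κ (Set.range (evM ρ r κ))

/-- The radical of the trace form on the span. -/
def NilR {Ω : Type} [CommRing Ω] [Algebra ℚ Ω] (r : Γ →* A.LGroup Ω) (κ : Type)
    [CommRing κ] [Algebra Ω κ] (M : Matrix (Fin n) (Fin n) κ) : Prop :=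
  M ∈ spA ρ r κ ∧ ∀ γ, (M * evM ρ r κ γ).trace = 0

/-- `r` is a point with the right values over an algebraically closed field and the dimension of the span of
`ev ∘ r` is minimal among all points with the right values over all field extensions. -/
structure IsMinPt {K : Type} [Field K] (V : Γ → O → K) (Ω : Type) [Field Ω]
    [Algebra ℚ Ω] [Algebra K Ω] (r : Γ →* A.LGroup Ω) : Prop where
  val : HasVal A V Ω r
  min : ∀ (Ω' : Type) [Field Ω'] [Algebra ℚ Ω'] [Algebra K Ω'] (r' : Γ →* A.LGroup Ω'),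
    HasVal A V Ω' r' → Module.finrank Ω (spA ρ r Ω) ≤ Module.finrank Ω' (spA ρ r' Ω')

theorem evM_mul {Ω : Type} [CommRing Ω] [Algebra ℚ Ω] (r : Γ →* A.LGroup Ω) (κ : Type)
    [CommRing κ] [Algebra Ω κ] (γ δ : Γ) : evM ρ r κ (γ * δ) = evM ρ r κ γ * evM ρ r κ δ := by
  unfold evM
  rw [map_mul, map_mul, Matrix.map_mul]

theorem evM_one {Ω : Type} [CommRing Ω] [Algebra ℚ Ω] (r : Γ →* A.LGroup Ω) (κ : Type)
    [CommRing κ] [Algebra Ω κ] : evM ρ r κ 1 = 1 := by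
  unfold evM
  rw [map_one, map_one, Matrix.map_one _ (map_zero _) (map_one _)]

theorem evM_mul_inv {Ω : Type} [CommRing Ω] [Algebra ℚ Ω] (r : Γ →* A.LGroup Ω) (κ : Type)
    [CommRing κ] [Algebra Ω κ] (γ : Γ) : evM ρ r κ γ * evM ρ r κ γ⁻¹ = 1 ∧
      evM ρ r κ γ⁻¹ * evM ρ r κ γ = 1 := by
  constructor
  · rw [← evM_mul, mul_inv_cancel, evM_one]
  · rw [← evM_mul, inv_mul_cancel, evM_one]

/-- The span is a subalgebra. -/
theorem spA_mul {Ω : Type} [CommRing Ω] [Algebra ℚ Ω] (r : Γ →* A.LGroup Ω) (κ : Type)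
    [CommRing κ] [Algebra Ω κ] {M N : Matrix (Fin n) (Fin n) κ} (hM : M ∈ spA ρ r κ)
    (hN : N ∈ spA ρ r κ) : M * N ∈ spA ρ r κ := by
  have h1 : spA ρ r κ * spA ρ r κ ≤ spA ρ r κ := by
    unfold spA
    rw [Submodule.span_mul_span]
    refine Submodule.span_mono ?_
    rintro _ ⟨_, ⟨γ, rfl⟩, _, ⟨δ, rfl⟩, rfl⟩
    exact ⟨γ * δ, evM_mul ρ r κ γ δ⟩
  exact h1 (Submodule.mul_mem_mul hM hN)

end Pool.Agent.Lib.MP_666dc0_nt.IG
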