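import Pool.Agent.Lib.MP_666dc0_nt.IG.GAa

open MvPolynomial

namespace Pool.Agent.Lib.MP_666dc0_nt.IG

variable {O : Type} [CommRing O] [HopfAlgebra ℚ O] {Γ : Type} [Group Γ] {A : HopfAction Γ O}
  {n : ℕ} (ρ : MatRep A n)

/-- The trace function. -/
noncomputable def tf {K : Type} [Field K] (V : Γ → O → K) (γ : Γ) : K := V γ (ρ.trF γ)

/-- The matrices of left multiplication on the span modulo its radical. -/
noncomputable def sg {K : Type} [Field K] (V : Γ → O → K) {N : ℕ} (e : Fin N → Γ)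
    (Gi : Matrix (Fin N) (Fin N) K) (δ : Γ) : Matrix (Fin N) (Fin N) K :=
  Matrix.of fun k j => ∑ i, Gi k i * tf ρ V (δ * e j * e i)

theorem trace_evM {K : Type} [Field K] {V : Γ → O → K} {Ω : Type} [Field Ω] [Algebra ℚ Ω]
    [Algebra K Ω] {r : Γ →* A.LGroup Ω} (h : HasVal A V Ω r) (κ : Type) [Field κ] [Algebra K κ]
    [Algebra Ω κ] [IsScalarTower K Ω κ] (γ : Γ) :
    (evM ρ r κ γ).trace = algebraMap K κ (tf ρ V γ) := by
  have h1 : (evM ρ r κ γ).trace = algebraMap Ω κ ((ρ.ev Ω (r γ)).trace) :=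
    (AddMonoidHom.map_trace (algebraMap Ω κ).toAddMonoidHom _).symm
  have h2 := ρ.trF_eval (r γ)
  rw [h.proj γ, h.val γ _ (ρ.trF_mem γ)] at h2
  rw [h1, ← h2, ← IsScalarTower.algebraMap_apply]
  rfl

end Pool.Agent.Lib.MP_666dc0_nt.IG
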