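import Pool.Agent.Lib.MP_666dc0_nt.IG.Defs2
import Pool.Agent.Lib.MP_666dc0_nt.Mg.G023
import Pool.Agent.Lib.MP_666dc0_nt.Mg.G015
import Pool.Agent.Lib.MP_666dc0_nt.Mg.G013

open MvPolynomial

namespace Pool.Agent.Lib.MP_666dc0_nt.IG

variable {O : Type} [CommRing O] [HopfAlgebra ℚ O] {Γ : Type} [Group Γ] {A : HopfAction Γ O}
  {n : ℕ} (ρ : MatRep A n)

/-- The matrices `P γ` normalise `G` (`pm_mul_gm`), so `TensorData.norm` applies. -/
theorem exists_D {G : Red n} (hG : IsRedG ρ G) (TD : TensorData G) (γ : Γ) :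
    ∃ D : (b : TD.s.β) → TD.s.C b → TD.s.C b → ℚ, act (ρ.P γ) (ρ.P γ⁻¹) TD.T₀ = mix D TD.T₀ := by
  apply TD.norm
  · rw [← map_mul, mul_inv_cancel, map_one]
  · rw [← map_mul, inv_mul_cancel, map_one]
  · intro R _ _ k k' hk
    rw [hG] at hk ⊢
    obtain ⟨x, rfl, rfl⟩ := hk
    have key : ∀ y : Pts O R, ρ.gm (A.onPts R γ y) =
        (ρ.P γ).map (algebraMap ℚ R) * ρ.gm y * (ρ.P γ⁻¹).map (algebraMap ℚ R) := by
      intro y
      have h1 : (ρ.P γ).map (algebraMap ℚ R) * ρ.gm y =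
          ρ.gm (A.onPts R γ y) * (ρ.P γ).map (algebraMap ℚ R) := ρ.pm_mul_gm γ y
      have h2 : (ρ.P γ).map (algebraMap ℚ R) * (ρ.P γ⁻¹).map (algebraMap ℚ R) = 1 := by
        have : ρ.pm R γ * ρ.pm R γ⁻¹ = 1 := by rw [← map_mul, mul_inv_cancel, map_one]
        exact this
      rw [h1, mul_assoc, h2, mul_one]
    refine ⟨A.onPts R γ x, key x, ?_⟩
    rw [← map_inv]
    exact key x⁻¹

/-- The chosen matrices `D γ`. -/
noncomputable def Dm {G : Red n} (hG : IsRedG ρ G) (TD : TensorData G) (γ : Γ) :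
    (b : TD.s.β) → TD.s.C b → TD.s.C b → ℚ := (exists_D ρ hG TD γ).choose

/-- The matrices `D` over a ring. -/
noncomputable def DmR {G : Red n} (hG : IsRedG ρ G) (TD : TensorData G) (R : Type) [CommRing R]
    [Algebra ℚ R] (γ : Γ) : (b : TD.s.β) → TD.s.C b → TD.s.C b → R :=
  fun b c c' => algebraMap ℚ R (Dm ρ hG TD γ b c c')

private theorem G0c_gm_inv_mul {R : Type} [CommRing R] [Algebra ℚ R] (x : Pts O R) :
    ρ.gm x⁻¹ * ρ.gm x = 1 := by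
  rw [← ρ.gm_mul, inv_mul_cancel, ρ.gm_one]

private theorem G0c_act_pm {G : Red n} (hG : IsRedG ρ G) (TD : TensorData G) (R : Type) [CommRing R]
    [Algebra ℚ R] (γ : Γ) :
    act (ρ.pm R γ) (ρ.pm R γ⁻¹) (inA R TD.T₀) = mix (DmR ρ hG TD R γ) (inA R TD.T₀) := by
  funext x
  have h1 := map_act (algebraMap ℚ R) (ρ.P γ) (ρ.P γ⁻¹) TD.T₀ x
  have h2 : act (ρ.P γ) (ρ.P γ⁻¹) TD.T₀ = mix (Dm ρ hG TD γ) TD.T₀ :=
    (exists_D ρ hG TD γ).choose_spec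
  refine Eq.trans h1.symm ?_
  rw [h2]
  unfold mix
  rw [map_sum]
  exact Finset.sum_congr rfl fun c _ => map_mul _ _ _

private theorem G0c_ev_inv {R : Type} [CommRing R] [Algebra ℚ R] (x : A.LGroup R) :
    ρ.ev R x⁻¹ = ρ.pm R x.right⁻¹ * ρ.gm x.left⁻¹ := by
  have h1 : ρ.pm R x.right⁻¹ * ρ.gm x.left⁻¹ * ρ.ev R x = 1 := by
    rw [ρ.ev_apply]
    calc ρ.pm R x.right⁻¹ * ρ.gm x.left⁻¹ * (ρ.gm x.left * ρ.pm R x.right)
        = ρ.pm R x.right⁻¹ * (ρ.gm x.left⁻¹ * ρ.gm x.left) * ρ.pm R x.right := by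
          simp only [mul_assoc]
      _ = 1 := by rw [G0c_gm_inv_mul, mul_one, ← map_mul, inv_mul_cancel, map_one]
  calc ρ.ev R x⁻¹ = ρ.pm R x.right⁻¹ * ρ.gm x.left⁻¹ * ρ.ev R x * ρ.ev R x⁻¹ := by
        rw [h1, one_mul]
    _ = _ := by rw [mul_assoc, ev_mul_inv, mul_one]

/-- Elements of the L-group over `γ` act on `T₀` by `D γ`: `ev x = gm(x.left) pm(γ)`, `act_mul`,
`TensorData.fix`, `act_mix`, and the defining property of `Dm`. -/
theorem act_ev {G : Red n} (hG : IsRedG ρ G) (TD : TensorData G) {R : Type} [CommRing R]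
    [Algebra ℚ R] (x : A.LGroup R) :
    act (ρ.ev R x) (ρ.ev R x⁻¹) (inA R TD.T₀) = mix (DmR ρ hG TD R x.right) (inA R TD.T₀) := by
  have hfix := TD.fix R (ρ.gm x.left) (ρ.gm x.left⁻¹) ((hG R _ _).mpr ⟨x.left, rfl, rfl⟩)
  rw [G0c_ev_inv, ρ.ev_apply, act_mul, G0c_act_pm ρ hG TD R x.right, act_mix, hfix]

end Pool.Agent.Lib.MP_666dc0_nt.IG
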