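import Pool.Agent.Lib.MP_666dc0_nt.Mg.G035

open MvPolynomial

namespace Pool.Agent.Lib.MP_666dc0_nt.IG

variable {n : ℕ} {s : Shape}

private theorem TIf_isIntegral {A R : Type*} [CommRing A] [CommRing R] [Algebra A R] (x : R)
    (N : ℕ) (a : Fin N → A) (h : x ^ N + ∑ i, algebraMap A R (a i) * x ^ (i : ℕ) = 0) :
    IsIntegral A x := by
  refine ⟨Polynomial.X ^ N + ∑ i, Polynomial.C (a i) * Polynomial.X ^ (i : ℕ),
    Polynomial.monic_X_pow_add (Polynomial.degree_sum_fin_lt a), ?_⟩
  rw [Polynomial.eval₂_add, Polynomial.eval₂_finsetSum, Polynomial.eval₂_pow, Polynomial.eval₂_X]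
  simpa only [Polynomial.eval₂_mul, Polynomial.eval₂_C, Polynomial.eval₂_pow, Polynomial.eval₂_X]
    using h

/-- Theorem I. For a RATIONAL family of tensors `T₀`, the function `z ↦ p(v_z, T₀)` on any set `Z` of
matrices satisfying `TICond` is integral over the algebra generated by the functions word traces.
In the ring `Z → K`: by `theorem_I_graded` it is integral over the algebra generated by rational constants
(values `q₀(T₀)`) and functions `z ↦ q₀(v_z)`, `q₀` invariant, which are integral over the algebra of word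
traces by `word_trace_integral`; transitivity of integrality
(`IsIntegral.trans`-like / `integralClosure` is a subalgebra containing the coefficients, and
`isIntegral_trans`). -/
theorem theorem_I [s.Small] {K : Type} [Field K] [IsAlgClosed K] [CharZero K] [Algebra ℚ K]
    {M : Type} [Fintype M] (D : M → (b : s.β) → s.C b → s.C b → ℚ) (T₀ : s.Ix n → ℚ)
    (p : MvPolynomial ((tot (M ⊕ M) s).Ix n) ℚ) (hp : IsInv (redGL n) p) (Z : Type)
    (v : Z → M ⊕ M → Matrix (Fin n) (Fin n) K)
    (hv : ∀ z, TICond s D (v z) (fun x => algebraMap ℚ K (T₀ x))) :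
    IsIntegral (Algebra.adjoin ℚ {φ : Z → K | ∃ l : List (M ⊕ M),
      φ = fun z => (wordProd (v z) l).trace})
      (fun z => aeval (toTot (v z) (fun x => algebraMap ℚ K (T₀ x))) p) := by
  obtain ⟨N, a, ha, hrel⟩ := theorem_I_graded (K := K) D p hp
  set S₀ : Set (Z → K) := {φ : Z → K | ∃ l : List (M ⊕ M),
      φ = fun z => (wordProd (v z) l).trace} with hS₀
  set A₀ := Algebra.adjoin ℚ S₀ with hA₀
  let TK : s.Ix n → K := fun x => algebraMap ℚ K (T₀ x)
  let Ev : MvPolynomial ((tot (M ⊕ M) s).Ix n) ℚ →ₐ[ℚ] (Z → K) :=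
    aeval (fun x z => toTot (v z) TK x)
  have hEv : ∀ q z, Ev q z = aeval (toTot (v z) TK) q := by
    intro q z
    have h1 : (Pi.evalAlgHom ℚ (fun _ : Z => K) z).comp Ev = aeval (toTot (v z) TK) := by
      apply MvPolynomial.algHom_ext
      intro x
      simp [Ev]
    exact DFunLike.congr_fun h1 q
  let Em : MvPolynomial ((mats (M ⊕ M)).Ix n) ℚ →ₐ[ℚ] (Z → K) :=
    aeval (fun x z => toMats (v z) x)
  have hEm : ∀ q z, Em q z = aeval (toMats (v z)) q := by
    intro q z
    have h1 : (Pi.evalAlgHom ℚ (fun _ : Z => K) z).comp Em = aeval (toMats (v z)) := by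
      apply MvPolynomial.algHom_ext
      intro x
      simp [Em]
    exact DFunLike.congr_fun h1 q
  -- word traces
  have hwt : ∀ q ∈ Algebra.adjoin ℚ {q | ∃ l : List (M ⊕ M), q = wtr n l}, Em q ∈ A₀ := by
    intro q hq
    have h1 : (Algebra.adjoin ℚ {q | ∃ l : List (M ⊕ M), q = wtr n l}).map Em ≤ A₀ := by
      rw [AlgHom.map_adjoin]
      refine Algebra.adjoin_mono ?_
      rintro _ ⟨_, ⟨l, rfl⟩, rfl⟩
      refine ⟨l, ?_⟩
      funext z
      rw [hEm, aeval_wtr]
    exact h1 ⟨q, hq, rfl⟩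
  -- the integral closure
  let C := integralClosure A₀ (Z → K)
  have hC : ∀ q ∈ Algebra.adjoin ℚ
        ({q | ∃ q₀ : MvPolynomial (s.Ix n) ℚ, IsInv (redGL n) q₀ ∧ q = rename ixR q₀} ∪
         {q | ∃ q₀ : MvPolynomial ((mats (M ⊕ M)).Ix n) ℚ, IsInv (redGL n) q₀ ∧
            q = rename ixL q₀}), Ev q ∈ C := by
    intro q hq
    have h1 : (Algebra.adjoin ℚ
        ({q | ∃ q₀ : MvPolynomial (s.Ix n) ℚ, IsInv (redGL n) q₀ ∧ q = rename ixR q₀} ∪
         {q | ∃ q₀ : MvPolynomial ((mats (M ⊕ M)).Ix n) ℚ, IsInv (redGL n) q₀ ∧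
            q = rename ixL q₀})).map Ev ≤ C.restrictScalars ℚ := by
      rw [AlgHom.map_adjoin]
      refine Algebra.adjoin_le ?_
      rintro _ ⟨_, (⟨q₀, hq₀, rfl⟩ | ⟨q₀, hq₀, rfl⟩), rfl⟩
      · have h2 : Ev (rename ixR q₀) = algebraMap ℚ (Z → K) (aeval T₀ q₀) := by
          funext z
          rw [hEv, aeval_rename_ixR]
          have h3 : aeval TK q₀ = algebraMap ℚ K (aeval T₀ q₀) := aeval_algebraMap_apply K T₀ q₀
          rw [h3]
          rfl
        rw [h2]
        exact (C.restrictScalars ℚ).algebraMap_mem _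
      · obtain ⟨N', b, hb, hb'⟩ := word_trace_integral q₀ hq₀
        have h2 : Ev (rename ixL q₀) = Em q₀ := by
          funext z
          rw [hEv, aeval_rename_ixL, hEm]
        rw [h2]
        change IsIntegral A₀ (Em q₀)
        refine TIf_isIntegral _ N' (fun i => ⟨Em (b i), hwt _ (hb i)⟩) ?_
        have h4 := congrArg Em hb'
        rw [map_zero, map_add, map_pow, map_sum] at h4
        simp only [map_mul, map_pow] at h4
        exact h4
    exact h1 ⟨q, hq, rfl⟩
  have hx : IsIntegral C (Ev p) := by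
    refine TIf_isIntegral _ N (fun i => ⟨Ev (a i), hC _ (ha i)⟩) ?_
    funext z
    have h5 := hrel (v z) TK (hv z)
    rw [← hEv, map_add, map_pow, map_sum] at h5
    simp only [map_mul, map_pow] at h5
    exact h5
  have hfin : IsIntegral A₀ (Ev p) := isIntegral_trans (A := C) _ hx
  have hEvp : (fun z => aeval (toTot (v z) TK) p) = Ev p := by
    funext z
    rw [hEv]
  rw [hEvp]
  exact hfin

end Pool.Agent.Lib.MP_666dc0_nt.IG
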