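import Pool.Agent.Lib.MP_666dc0_nt.IG.E4e
import Pool.Agent.Lib.MP_666dc0_nt.IG.G0c
import Pool.Agent.Lib.MP_666dc0_nt.IG.TIf

open MvPolynomial

namespace Pool.Agent.Lib.MP_666dc0_nt.IG

variable {O : Type} [CommRing O] [HopfAlgebra ℚ O] {Γ : Type} [Group Γ] {A : HopfAction Γ O}
  {n : ℕ} (ρ : MatRep A n)

/-- `r : Γ → ᴸG(Ω)` is a homomorphism over `Γ` with the prescribed values `V γ f` of the invariant
functions, `Ω` a `K`-algebra. -/
structure HasVal {K : Type} [Field K] (A : HopfAction Γ O) (V : Γ → O → K) (Ω : Type) [CommRing Ω]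
    [Algebra ℚ Ω] [Algebra K Ω] (r : Γ →* A.LGroup Ω) : Prop where
  proj : ∀ γ, (r γ).right = γ
  val : ∀ γ, ∀ f ∈ A.inv γ, (r γ).left.hom f = algebraMap K Ω (V γ f)

/-- The family of the matrices `ev (r γ)`, `ev (r γ)⁻¹`. -/
noncomputable def fam {R : Type} [CommRing R] [Algebra ℚ R] (r : Γ →* A.LGroup R) :
    Γ ⊕ Γ → Matrix (Fin n) (Fin n) R :=
  Sum.elim (fun γ => ρ.ev R (r γ)) (fun γ => ρ.ev R (r γ)⁻¹)

/-- the finite index set of the elements of `Γ` occurring in a finite subset of `Γ ⊕ Γ` -/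
private noncomputable def F0aM (M₀ : Finset (Γ ⊕ Γ)) : Finset Γ := by
  classical exact M₀.image (Sum.elim id id)

private theorem F0aM_inl {M₀ : Finset (Γ ⊕ Γ)} {γ : Γ} (h : Sum.inl γ ∈ M₀) : γ ∈ F0aM M₀ := by
  classical
  unfold F0aM
  exact Finset.mem_image.mpr ⟨_, h, rfl⟩

private theorem F0aM_inr {M₀ : Finset (Γ ⊕ Γ)} {γ : Γ} (h : Sum.inr γ ∈ M₀) : γ ∈ F0aM M₀ := by
  classical
  unfold F0aM
  exact Finset.mem_image.mpr ⟨_, h, rfl⟩

private noncomputable def F0aj (M₀ : Finset (Γ ⊕ Γ)) :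
    {x // x ∈ M₀} → {x // x ∈ F0aM M₀} ⊕ {x // x ∈ F0aM M₀}
  | ⟨Sum.inl γ, h⟩ => Sum.inl ⟨γ, F0aM_inl h⟩
  | ⟨Sum.inr γ, h⟩ => Sum.inr ⟨γ, F0aM_inr h⟩

private noncomputable def F0afam {R : Type} [CommRing R] [Algebra ℚ R] (M : Finset Γ)
    (r : Γ →* A.LGroup R) : {x // x ∈ M} ⊕ {x // x ∈ M} → Matrix (Fin n) (Fin n) R :=
  Sum.elim (fun γ => ρ.ev R (r γ)) (fun γ => ρ.ev R (r γ)⁻¹)

private theorem F0a_fam {R : Type} [CommRing R] [Algebra ℚ R] (M₀ : Finset (Γ ⊕ Γ))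
    (r : Γ →* A.LGroup R) (x : {x // x ∈ M₀}) :
    F0afam ρ (F0aM M₀) r (F0aj M₀ x) = fam ρ r x.1 := by
  obtain ⟨x | x, h⟩ := x <;> rfl

private theorem F0a_word {R : Type} [CommRing R] [Algebra ℚ R] (M : Finset Γ)
    (l : List ({x // x ∈ M} ⊕ {x // x ∈ M})) : ∃ δ : Γ, ∀ r : Γ →* A.LGroup R,
      wordProd (F0afam ρ M r) l = ρ.ev R (r δ) := by
  induction l with
  | nil => exact ⟨1, fun r => by
      unfold wordProd
      rw [List.map_nil, List.prod_nil, map_one, map_one]⟩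
  | cons a l ih =>
    obtain ⟨δ, hδ⟩ := ih
    have hc : ∀ r : Γ →* A.LGroup R, wordProd (F0afam ρ M r) (a :: l) =
        F0afam ρ M r a * wordProd (F0afam ρ M r) l := by
      intro r
      unfold wordProd
      rw [List.map_cons, List.prod_cons]
    rcases a with γ | γ
    · refine ⟨γ * δ, fun r => ?_⟩
      rw [hc, hδ, map_mul, map_mul]
      rfl
    · refine ⟨(γ : Γ)⁻¹ * δ, fun r => ?_⟩
      rw [hc, hδ, map_mul, map_mul, map_inv]
      rfl

/-- F1. For a polynomial `p` in the matrices `v_γ, v'_γ` invariant under `G` the function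
`z ↦ p(fam (r z))` is integral over every subalgebra `B` of `Z → K` containing all functions
`z ↦ f(r z γ)`, `f ∈ inv γ`. Restrict to finitely many `γ` (`exists_finset_rename`, then enlarge the index
set to `M ⊕ M`, `M : Finset Γ`), extend `p` by `extend_conj_inv` to `F`, and apply `theorem_I` with the
matrices `D γ` (`TICond` by `act_ev`, `ev_mul_inv`, `ev_inv_mul`); the word traces are
`z ↦ (r z δ).left.hom (trF δ)`, `trF_mem`. -/
theorem integral_fam {G : Red n} (hG : IsRedG ρ G) (TD : TensorData G) {K : Type} [Field K]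
    [IsAlgClosed K] [CharZero K] [Algebra ℚ K] {Z : Type} (r : Z → Γ →* A.LGroup K)
    (hr : ∀ z γ, (r z γ).right = γ) (B : Subalgebra ℚ (Z → K))
    (hB : ∀ γ, ∀ f ∈ A.inv γ, (fun z => (r z γ).left.hom f) ∈ B)
    (p : MvPolynomial ((mats (Γ ⊕ Γ)).Ix n) ℚ) (hp : IsInv G p) :
    IsIntegral B (fun z => aeval (toMats (fam ρ (r z))) p) := by
  obtain ⟨M₀, p₀, hp₀, rfl⟩ := exists_finset_rename G p hp
  set M := F0aM M₀ with hM
  set p₁ : MvPolynomial ((mats ({x // x ∈ M} ⊕ {x // x ∈ M})).Ix n) ℚ :=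
    rename (ixMap (F0aj M₀)) p₀ with hp₁
  have hinv : IsInv G p₁ := by
    intro R _ _ k k' hk t
    obtain ⟨v, rfl⟩ := exists_toMats t
    rw [act_toMats, hp₁, aeval_rename_ixMap, aeval_rename_ixMap]
    have := hp₀ R k k' hk (toMats fun m => v (F0aj M₀ m))
    rw [act_toMats] at this
    exact this
  obtain ⟨F, hF, hFe⟩ := extend_conj_inv G TD p₁ hinv
  let D : {x // x ∈ M} → (b : TD.s.β) → TD.s.C b → TD.s.C b → ℚ := fun m => Dm ρ hG TD m.1
  have hTI : ∀ z, TICond TD.s D (F0afam ρ M (r z)) (fun x => algebraMap ℚ K (TD.T₀ x)) := by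
    intro z m
    refine ⟨ev_mul_inv ρ (r z m.1), ev_inv_mul ρ (r z m.1), ?_⟩
    have h1 := act_ev ρ hG TD (r z m.1)
    rw [hr z m.1] at h1
    exact h1
  have hint := theorem_I D TD.T₀ F hF Z (fun z => F0afam ρ M (r z)) hTI
  have hle : Algebra.adjoin ℚ {φ : Z → K | ∃ l : List ({x // x ∈ M} ⊕ {x // x ∈ M}),
      φ = fun z => (wordProd (F0afam ρ M (r z)) l).trace} ≤ B := by
    rw [Algebra.adjoin_le_iff]
    rintro _ ⟨l, rfl⟩
    obtain ⟨δ, hδ⟩ := F0a_word ρ (R := K) M l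
    have h2 : (fun z => (wordProd (F0afam ρ M (r z)) l).trace) =
        fun z => (r z δ).left.hom (ρ.trF δ) := by
      funext z
      rw [hδ (r z), ← ρ.trF_eval, hr z δ]
    rw [h2]
    exact hB δ _ (ρ.trF_mem δ)
  have hfun : (fun z => aeval (toMats (fam ρ (r z))) (rename (ixMap Subtype.val) p₀)) =
      fun z => aeval (toTot (F0afam ρ M (r z)) (fun x => algebraMap ℚ K (TD.T₀ x))) F := by
    funext z
    have h3 := hFe K (F0afam ρ M (r z))
    refine Eq.trans ?_ h3.symm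
    rw [aeval_rename_ixMap, hp₁, aeval_rename_ixMap]
    have h4 : (fun m : {x // x ∈ M₀} => fam ρ (r z) m.1) =
        fun m => F0afam ρ M (r z) (F0aj M₀ m) := by
      funext m
      exact (F0a_fam ρ M₀ (r z) m).symm
    rw [h4]
  rw [hfun]
  obtain ⟨f, hf, hf0⟩ := hint
  refine ⟨f.map (Subalgebra.inclusion hle).toRingHom, hf.map _, ?_⟩
  rw [Polynomial.eval₂_map]
  exact hf0

end Pool.Agent.Lib.MP_666dc0_nt.IG
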