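import Pool.Agent.Lib.MP_666dc0_nt.Mg.G020
import Pool.Agent.Lib.MP_666dc0_nt.IG.R2b
import Pool.Agent.Lib.MP_666dc0_nt.Mg.G018
import Pool.Agent.Lib.MP_666dc0_nt.Mg.G021

open MvPolynomial

namespace Pool.Agent.Lib.MP_666dc0_nt.IG

variable {n : ℕ}

/-- `q(X, X'; w) = p(X' w X)` -/
private theorem E4e_q {s : Shape} (p : MvPolynomial (s.Ix n) ℚ) :
    ∃ q : MvPolynomial (PV n ⊕ s.Ix n) ℚ, ∀ (A : Type) [CommRing A] [Algebra ℚ A]
      (k k' : Matrix (Fin n) (Fin n) A) (w : s.Ix n → A),
      aeval (Sum.elim (evp k k') w) q = aeval (act k' k w) p := by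
  let Y : Matrix (Fin n) (Fin n) (MvPolynomial (PV n ⊕ s.Ix n) ℚ) :=
    Matrix.of fun i j => X (Sum.inl (Sum.inl (i, j)))
  let Y' : Matrix (Fin n) (Fin n) (MvPolynomial (PV n ⊕ s.Ix n) ℚ) :=
    Matrix.of fun i j => X (Sum.inl (Sum.inr (i, j)))
  refine ⟨aeval (act Y' Y (fun y => X (Sum.inr y))) p, ?_⟩
  intro A _ _ k k' w
  let φ : MvPolynomial (PV n ⊕ s.Ix n) ℚ →ₐ[ℚ] A := aeval (Sum.elim (evp k k') w)
  have h1 : φ (aeval (act Y' Y (fun y => X (Sum.inr y))) p) =
      aeval (fun x => φ (act Y' Y (fun y => X (Sum.inr y)) x)) p := by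
    rw [← AlgHom.comp_apply, comp_aeval]
  refine h1.trans ?_
  congr 2
  funext x
  have h2 := map_act φ.toRingHom Y' Y (fun y => X (Sum.inr y)) x
  refine h2.trans ?_
  have e1 : Y'.map φ.toRingHom = k' := by
    ext i j
    exact aeval_X _ _
  have e2 : Y.map φ.toRingHom = k := by
    ext i j
    exact aeval_X _ _
  have e3 : (fun y => φ.toRingHom (X (Sum.inr y))) = w := by
    funext y
    exact aeval_X _ _
  rw [e1, e2, e3]

private theorem E4e_tot {M : Type} {s : Shape} {A : Type} [CommRing A] [Algebra ℚ A]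
    (v : M → Matrix (Fin n) (Fin n) A) (t : s.Ix n → A)
    (F : MvPolynomial (s.Ix n ⊕ (mats M).Ix n) ℚ) :
    aeval (toTot v t) (rename (Sum.elim ixR ixL) F) = aeval (Sum.elim t (toMats v)) F := by
  rw [aeval_rename]
  congr 2
  funext x
  rcases x with x | x <;> rfl

private theorem E4e_aeval_map {σ Ω B : Type} [CommRing Ω] [Algebra ℚ Ω] [CommRing B] [Algebra ℚ B]
    [Algebra Ω B] (x : σ → B) (p : MvPolynomial σ ℚ) :
    aeval x (MvPolynomial.map (algebraMap ℚ Ω) p) = aeval x p := by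
  have hQA : (algebraMap Ω B).comp (algebraMap ℚ Ω) = algebraMap ℚ B := Subsingleton.elim _ _
  rw [aeval_def, eval₂_map, hQA, ← aeval_def]

/-- E6. A polynomial in matrices invariant under conjugation by `G` is the restriction to `T = T₀` of a
`GL_n`-invariant polynomial in matrices and tensors. Let `q(X, X'; v) := p(X' v X)` (`v` = variables
`(mats M).Ix n`); it is right invariant under `G`, so `gen` gives `F₁(T; v)` with
`F₁(act k k' T₀; v) = p(k' v k)` for inverse pairs. Put `F := Rey (redGL n) F₁` (`F₁` viewed as a polynomial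
on `(tot M s).Ix n`): for a ring `R`, `v` over `R`, by `aeval_Rey_eq_const`,
`F(v, T₀) = average over k of F₁(k v k'; act k k' T₀) = p(k' k v k' k) = p(v)`. (`aeval_Rey_eq_const` with
coefficient ring `A := R` and constant `p(v) ∈ R`.) -/
theorem extend_conj_inv (G : Red n) (TD : TensorData G) {M : Type}
    (p : MvPolynomial ((mats M).Ix n) ℚ) (hp : IsInv G p) :
    ∃ F : MvPolynomial ((tot M TD.s).Ix n) ℚ, IsInv (redGL n) F ∧
      ∀ (R : Type) [CommRing R] [Algebra ℚ R] (v : M → Matrix (Fin n) (Fin n) R),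
        aeval (toTot v (inA R TD.T₀)) F = aeval (toMats v) p := by
  obtain ⟨q, hq⟩ := E4e_q p
  obtain ⟨F₁, hF₁⟩ := TD.gen ((mats M).Ix n) q (by
    intro A _ _ k k' g g' w h1 h2 hg
    rw [hq, hq, act_mul, hp A g' g (G.in_symm A g g' hg)])
  refine ⟨Rey (redGL n) (rename (Sum.elim ixR ixL) F₁), isInv_Rey _ _, ?_⟩
  intro R _ _ v
  have h3 := aeval_Rey_eq_const (A := R) (B := R) (redGL n)
    (MvPolynomial.map (algebraMap ℚ R) (rename (Sum.elim ixR ixL) F₁ :
      MvPolynomial ((tot M TD.s).Ix n) ℚ))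
    (toTot v (inA R TD.T₀)) (aeval (toMats v) p) (by
      intro B' _ _ _ f k k' hk
      obtain ⟨h1, h2⟩ := redGL_In.mp hk
      have hQA : (algebraMap R B').comp (algebraMap ℚ R) = algebraMap ℚ B' :=
        Subsingleton.elim _ _
      have e0 : (fun x => f (toTot v (inA R TD.T₀) x)) =
          toTot (fun m => (v m).map (algebraMap R B')) (inA B' TD.T₀) := by
        have e1 := map_toTot (algebraMap R B') v (inA R TD.T₀)
        have e2 : (fun x => algebraMap R B' (inA R TD.T₀ x)) = inA B' TD.T₀ := by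
          funext x
          exact RingHom.congr_fun hQA (TD.T₀ x)
        rw [e2] at e1
        rw [← e1]
        funext x
        exact f.commutes _
      rw [e0, E4e_aeval_map, act_toTot, E4e_tot, hF₁ B' k k' _ h1 h2, hq, act_toMats]
      have e3 : (fun m => k' * (k * (v m).map (algebraMap R B') * k') * k) =
          fun m => (v m).map (algebraMap R B') := by
        funext m
        rw [mul_assoc k' _ k, mul_assoc _ k' k, h2, mul_one, ← mul_assoc, h2, one_mul]
      rw [e3, ← map_toMats, aeval_def, aeval_def, ← hQA, hom_eval₂])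
  rw [← map_Rey, E4e_aeval_map] at h3
  exact h3

end Pool.Agent.Lib.MP_666dc0_nt.IG
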