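import Pool.Agent.Lib.MP_666dc0_nt.Mg.G044
import Pool.Agent.Lib.MP_666dc0_nt.Mg.G042
import Pool.Agent.Lib.MP_666dc0_nt.Mg.G043
import Pool.Agent.Lib.MP_666dc0_nt.Mg.G046
import Pool.Agent.Lib.MP_666dc0_nt.Mg.G054
import Pool.Agent.Lib.MP_666dc0_nt.Mg.G045
import Pool.Agent.Lib.MP_666dc0_nt.Mg.G056

open NumberField IsDedekindDomain Topology Polynomial TensorProduct
open scoped NumberField TensorProduct

namespace Pool.Agent.Lib.MP_666dc0_nt.IG

theorem exists_squarefree_of_ss {K : Type} [Field K] [CharZero K] {m : ℕ}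
    {M : Matrix (Fin m) (Fin m) K} (h : Module.End.IsSemisimple (Matrix.toLin' M)) :
    ∃ p : K[X], Squarefree p ∧ aeval M p = 0 := by
  refine ⟨minpoly K (Matrix.toLin' M), h.minpoly_squarefree, ?_⟩
  have h4 := minpoly.aeval K (Matrix.toLin' M)
  apply (Matrix.toLinAlgEquiv' (R := K) (n := Fin m)).injective
  rw [map_zero, ← AlgEquiv.coe_toAlgHom, ← Polynomial.aeval_algHom_apply]
  exact h4

variable {F : Type} [Field F] [NumberField F] {B : Type} [CommRing B] [IsDomain B]
  [IsPrincipalIdealRing B] [Algebra B ℚ] [IsFractionRing B ℚ] {O : Type} [CommRing O]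
  [HopfAlgebra B O] {A : OverB.HopfAction B Gal(AlgebraicClosure F/F) O}

/-- The interpolation theorem over `B`, for an algebraically closed topological field `K` of
characteristic zero. -/
theorem interpolation_Z [Module.Free B O] (hO : LinearlyReductive (ℚ ⊗[B] O))
    (hA : IsOpen (A.act.ker : Set Gal(AlgebraicClosure F/F)))
    {S : Finset (HeightOneSpectrum (𝓞 F))}
    (hS : ∀ v, v ∉ S → ∀ P u, IsInertiaAt v P u → A.act u = 1)
    {φ : HeightOneSpectrum (𝓞 F) → Gal(AlgebraicClosure F/F)}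
    (hφ : ∀ v, v ∉ S → ∃ P : Ideal (𝓞 (AlgebraicClosure F)), IsOver v P ∧
      (IsFrob v P (φ v) ∨ IsFrob v P (φ v)⁻¹))
    {n : ℕ} (ρ : OverB.MatRep A n) (hρ : OverB.IsFaithfulRep ρ)
    {T : Type} [CommRing T] [TopologicalSpace T] [CompactSpace T]
    (x : ∀ v, A.inv (φ v) → T) {Z : Type} {R : Z → Type} [∀ z, CommRing (R z)]
    [∀ z, Algebra B (R z)] [∀ z, TopologicalSpace (R z)] [∀ z, T2Space (R z)] (e : ∀ z, T →+* R z)
    (he : ∀ z, Continuous (e z)) (hinj : ∀ t, (∀ z, e z t = 0) → t = 0)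
    (hr : ∀ z, ∃ r : Gal(AlgebraicClosure F/F) →* A.LGroup (R z),
      OverB.IsAttachedTo A S φ (fun v f => e z (x v f)) r)
    {K : Type} [Field K] [CharZero K] [IsAlgClosed K] [Algebra B K] [TopologicalSpace K]
    [IsTopologicalRing K] (y : T →+* K) (hy : Continuous y) :
    ∃ r : Gal(AlgebraicClosure F/F) →* A.LGroup K,
      OverB.IsAttachedTo A S φ (fun v f => y (x v f)) r ∧ OverB.SemisimpleCriterion ρ r := by
  choose rz hrz using hr
  obtain ⟨E, iE1, iE2, rE, BE, hB, yB, V, hrE, hV, hVc, hVv, hVu⟩ :=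
    exists_V_Z hA hφ (x := x) e he hinj rz hrz (K := K) y hy
  obtain ⟨ρq, hρa, hρP⟩ := exists_baseRep ρ
  have hρf : Faithful ρq := faithful_baseRep hρ hρa
  have hAq : IsOpen ((baseA A).act.ker : Set Gal(AlgebraicClosure F/F)) := isOpen_ker_baseA A hA
  obtain ⟨G, hG⟩ := exists_redG ρq hO hρf
  obtain ⟨TD⟩ := exists_tensorData G
  obtain ⟨N, e', Gi, r, h1, hmul, hval, hent⟩ := core_gen ρq hG hρf TD (finite_range_act hAq) rE
    hrE BE hB yB V hV
  have hsc : IsScalarTower B ℚ K := isScalarTower_frac K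
  obtain ⟨LE, hLE1, hLE2⟩ := exists_LE A K
  have htf : Continuous (tf ρq V) := continuous_tf ρq hAq V hVc
  have hsg : ∀ k l, Continuous fun γ => sg ρq V e' Gi γ k l := fun k l =>
    continuous_sg ρq V htf e' Gi k l
  have hval' : ∀ γ, ∀ f ∈ (baseA A).inv γ, (r γ).left.hom f = V γ f := fun γ f hf => by
    rw [hval.val γ f hf]; rfl
  have htr : ∀ γ, (ρq.ev K (r γ)).trace = tf ρq V γ := by
    intro γ
    rw [← ρq.trF_eval, hval.proj]
    exact hval' γ _ (ρq.trF_mem γ)
  have hcont : ∀ f, Continuous fun γ => (r γ).left.hom f :=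
    continuous_of_entries ρq hAq hρf r hval.proj fun i j =>
      continuous_of_mem_FK hAq _ hsg (hent i j)
  let r₀ : Gal(AlgebraicClosure F/F) →* A.LGroup K := LE.toMonoidHom.comp r
  have hr₀1 : ∀ γ, (r₀ γ).right = γ := fun γ => (hLE1 (r γ)).trans (hval.proj γ)
  have hr₀2 : ∀ γ (f : O), (r₀ γ).left.hom f = (r γ).left.hom (1 ⊗ₜ[B] f) := fun γ f =>
    hLE2 (r γ) f
  refine ⟨r₀, ⟨hr₀1, fun f => ?_, ?_, ?_⟩, ?_⟩
  · simp only [hr₀2]
    exact hcont _
  · intro v hv P u hu
    have hu1 : A.act u = 1 := hS v hv P u hu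
    have huq : (baseA A).act u = 1 := by
      have h2 : (baseA A).act u = (baseA A).act 1 := baseA_act_eq A (by rw [hu1, map_one])
      rw [h2, map_one]
    have hui : ∀ z, (rz z u).left = 1 := fun z => (hrz z).unram v hv P u hu
    have hu1' : A.act u⁻¹ = 1 := by rw [map_inv, hu1, inv_one]
    have hui' : ∀ z, (rz z u⁻¹).left = 1 := fun z => by
      rw [map_inv, SemidirectProduct.inv_left, hui z, inv_one, map_one]
    have hsg1 : ∀ w, A.act w = 1 → (∀ z, (rz z w).left = 1) →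
        sg ρq V e' Gi w = sg ρq V e' Gi 1 := by
      intro w hw hwi
      have hwq : (baseA A).act w = 1 := by
        have h2 : (baseA A).act w = (baseA A).act 1 := baseA_act_eq A (by rw [hw, map_one])
        rw [h2, map_one]
      ext k l
      change ∑ i, Gi k i * tf ρq V (w * e' l * e' i) = ∑ i, Gi k i * tf ρq V (1 * e' l * e' i)
      refine Finset.sum_congr rfl fun i _ => ?_
      congr 1
      have h2 : ρq.trF (w * e' l * e' i) = ρq.trF (1 * e' l * e' i) := by
        refine trF_congr ρq ?_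
        rw [map_mul, map_mul, hwq, map_mul, map_mul, map_one]
      rw [tf, tf, h2, mul_assoc w, hVu w hw hwi, one_mul]
      rw [one_mul]
      exact ρq.trF_mem _
    have hev : ρq.ev K (r u) = ρq.ev K (r 1) := by
      ext i j
      exact FK_eq_one (sg ρq V e' Gi) huq (hsg1 u hu1 hui) (hsg1 u⁻¹ hu1' hui') (hent i j)
    have h3 : ρq.gm (r u).left = ρq.gm 1 := by
      rw [map_one, map_one, MatRep.ev_apply, hval.proj, ρq.pm_one huq, mul_one] at hev
      rw [hev, MatRep.gm_one]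
    have h4 : (r u).left = 1 := gm_injective ρq hρf h3
    have h5 : r u = SemidirectProduct.inr u := by
      refine SemidirectProduct.ext h4 ?_
      rw [hval.proj, SemidirectProduct.right_inr]
    have h6 : ∀ f : O, (r₀ u).left.hom f = (r₀ 1).left.hom f := by
      intro f
      rw [hr₀2, hr₀2, map_one, h4]
      rfl
    have h7 : (r₀ u).left = (r₀ 1).left := OverB.Pts.ext (AlgHom.ext h6)
    rw [h7, map_one]
    rfl
  · intro v hv f
    rw [hr₀2, hval' _ _ (inv_tmul A f.2)]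
    exact hVv v hv f
  · intro γ m ρ' hρ' hss
    obtain ⟨p, hp1, hp2⟩ := exists_squarefree_of_ss hss
    have htr2 : ∀ δ, (ρ' δ).trace = tf ρq V δ := by
      intro δ
      rw [hρ' δ, ← htr δ]
      congr 1
      rw [OverB.MatRep.ev_apply, MatRep.ev_apply, hr₀1, hval.proj]
      ext i j
      rw [Matrix.mul_apply, Matrix.mul_apply]
      refine Finset.sum_congr rfl fun k _ => ?_
      have h8 : ρ.gm (r₀ δ).left i k = ρq.gm (r δ).left i k := by
        change (r₀ δ).left.hom (ρ.a i k) = (r δ).left.hom (ρq.a i k)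
        rw [hr₀2, hρa]
      have h9 : ρ.pm K δ k j = ρq.pm K δ k j := by
        rw [OverB.MatRep.pm_apply, MatRep.pm_apply, hρP]
        exact (IsScalarTower.algebraMap_apply B ℚ K _)
      rw [h8, h9]
    have h2 := aeval_sg_eq_zero ρq V e' Gi h1 hmul ρ' htr2 γ hp2
    have h3 : DG (sg ρq V e' Gi γ) := by
      refine DG_of_squarefree (M' := sg ρq V e' Gi γ⁻¹) ?_ ?_ hp1 h2
      · rw [← hmul, mul_inv_cancel, h1]
      · rw [← hmul, inv_mul_cancel, h1]
    exact isSemisimpleElt_of_DG_Z ρq hρf (OverB.finite_range_act hA)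
      (fun Φ hΦ => OverB.exists_stable hA hΦ)
      (sg ρq V e' Gi) h1 hmul r hval.proj hent r₀ hr₀1 hr₀2 h3

end Pool.Agent.Lib.MP_666dc0_nt.IG
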