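import Pool.Agent.Lib.MP_666dc0_nt.Mg.G026
import Pool.Agent.Lib.MP_666dc0_nt.Mg.G027
import Pool.Agent.Lib.MP_666dc0_nt.Mg.G019
import Pool.Agent.Lib.MP_666dc0_nt.Mg.G028
import Pool.Agent.Lib.MP_666dc0_nt.Mg.G025
import Pool.Agent.Lib.MP_666dc0_nt.Mg.G022
import Pool.Agent.Lib.MP_666dc0_nt.Mg.G029
import Pool.Agent.Lib.MP_666dc0_nt.Mg.G020
import Pool.Agent.Lib.MP_666dc0_nt.Mg.G031
import Pool.Agent.Lib.MP_666dc0_nt.Mg.G030
import Pool.Agent.Lib.MP_666dc0_nt.Mg.G032
import Pool.Agent.Lib.MP_666dc0_nt.Mg.G033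
import Pool.Agent.Lib.MP_666dc0_nt.Mg.G034

open MvPolynomial

namespace Pool.Agent.Lib.MP_666dc0_nt.IG

variable {n : ℕ} {s : Shape}

/-- C4 (DOM). Let `φ : R → A` be a homomorphism of commutative rings and `m` a prime ideal of `R` containing
the kernel. There is a field `Ω`, a valuation subring `V` and `ψ : A → Ω` such that `ψ ∘ φ` has values in
`V` and the elements of `R` mapping to the maximal ideal of `V` are exactly those of `m`.
Proof: choose a minimal prime `q` over `ker φ` contained in `m`; by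
`Ideal.exists_comap_eq_of_mem_minimalPrimes_of_injective` (for `R ⧸ ker φ → A`, injective) there is a
prime `Q` of `A` with `Q.comap φ = q`; let `Ω = FractionRing (A ⧸ Q)`; the image `R/q → Ω` is injective, and the
local ring `(R/q)_m ⊂ Ω` is dominated by a valuation subring of `Ω`
(`LocalSubring.exists_le_valuationSubring`-like; `LocalSubring.ofPrime`). -/
theorem dominate {R A : Type} [CommRing R] [CommRing A] (φ : R →+* A) (m : Ideal R) [m.IsPrime]
    (hm : RingHom.ker φ ≤ m) :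
    ∃ (Ω : Type) (_ : Field Ω) (V : ValuationSubring Ω) (ψ : A →+* Ω),
      (∀ r, ψ (φ r) ∈ V) ∧ ∀ r, ψ (φ r) ∈ V.nonunits ↔ r ∈ m := by
  obtain ⟨Q, -, hQ, hQm⟩ := Ideal.exists_ideal_comap_le_prime (f := φ) m (⊥ : Ideal A) hm
  let Ω := FractionRing (A ⧸ Q)
  let ψ : A →+* Ω := (algebraMap (A ⧸ Q) Ω).comp (Ideal.Quotient.mk Q)
  have hker : ∀ r, ψ (φ r) = 0 → r ∈ m := by
    intro r hr
    apply hQm
    rw [Ideal.mem_comap, ← Ideal.Quotient.eq_zero_iff_mem]
    exact (IsFractionRing.injective (A ⧸ Q) Ω) (by rw [map_zero]; exact hr)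
  have hunit : ∀ y : m.primeCompl, IsUnit ((ψ.comp φ) y) := by
    intro y
    rw [isUnit_iff_ne_zero]
    exact fun h => y.2 (hker _ h)
  let g : Localization.AtPrime m →+* Ω := IsLocalization.lift (M := m.primeCompl) hunit
  have hg : ∀ r, g (algebraMap R _ r) = ψ (φ r) := fun r => IsLocalization.lift_eq hunit r
  obtain ⟨V, hV, hloc⟩ := IsLocalRing.exists_factor_valuationRing g
  have hmem : ∀ r, ψ (φ r) ∈ V := by
    intro r
    rw [← hg]
    exact hV _
  refine ⟨Ω, inferInstance, V, ψ, hmem, fun r => ?_⟩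
  have h1 : ψ (φ r) ∈ V.nonunits ↔
      (⟨ψ (φ r), hmem r⟩ : V) ∈ IsLocalRing.maximalIdeal V :=
    V.coe_mem_nonunits_iff (a := ⟨ψ (φ r), hmem r⟩)
  rw [h1, IsLocalRing.mem_maximalIdeal, mem_nonunits_iff,
    ← IsLocalization.AtPrime.to_map_mem_maximal_iff (Localization.AtPrime m) m r,
    IsLocalRing.mem_maximalIdeal, mem_nonunits_iff]
  have h2 : (⟨ψ (φ r), hmem r⟩ : V) = g.codRestrict V.toSubring hV (algebraMap R _ r) := by
    apply Subtype.ext
    exact (hg r).symm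
  rw [h2]
  constructor
  · intro h h3
    exact h (h3.map _)
  · intro h h3
    exact h (hloc.map_nonunit _ h3)

end Pool.Agent.Lib.MP_666dc0_nt.IG
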