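import Pool.Agent.Lib.MP_666dc0_nt.Mg.G020
import Pool.Agent.Lib.MP_666dc0_nt.Mg.G031

open MvPolynomial

namespace Pool.Agent.Lib.MP_666dc0_nt.IG

variable {n : ℕ} {s : Shape}

/-- Hypothesis of `hmi` used for the ideal: an average over `GL_n` of a polynomial in the kernel of
`f ↦ f(act X X' t)` vanishes at `t`. (Special case of `aeval_Rey_eq_zero`.) -/
theorem hmi_aux1 {K : Type} [Field K] [Algebra ℚ K] (t : s.Ix n → K) (f : MvPolynomial (s.Ix n) K)
    (hf : ∀ (B : Type) [CommRing B] [Algebra ℚ B] [Algebra K B] (k k' : Matrix (Fin n) (Fin n) B),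
      k * k' = 1 → k' * k = 1 → aeval (act k k' (fun y => algebraMap K B (t y))) f = 0) :
    aeval t (Rey (redGL n) f) = 0 := by
  apply aeval_Rey_eq_zero (redGL n) f t
  intro B' _ _ _ g k k' hk
  have h1 := hf B' k k' (redGL_In.mp hk).1 (redGL_In.mp hk).2
  have h2 : (fun x => g (t x)) = fun y => algebraMap K B' (t y) := by
    funext x
    exact g.commutes (t x)
  rw [h2]
  exact h1

/-- The ideal generated by the variables of the types in `thr` is stable: if `h` is in this ideal then
`(Rey h)(kill thr t) = 0`, because `act k k' (kill thr t) = kill thr (act k k' t)` and `h` vanishes at every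
point killed by `thr` (`aeval_Rey_eq_zero`). -/
theorem hmi_aux2 {K : Type} [Field K] [Algebra ℚ K] (thr : s.β → Prop) (t : s.Ix n → K)
    (h : MvPolynomial (s.Ix n) K) (hh : h ∈ Ideal.span {p | ∃ x : s.Ix n, thr x.1 ∧ p = X x}) :
    aeval (kill thr t) (Rey (redGL n) h) = 0 := by
  apply aeval_Rey_eq_zero (redGL n) h (kill thr t)
  intro B' _ _ _ g k k' hk
  induction hh using Submodule.span_induction with
  | mem q hq =>
    obtain ⟨x, hx, rfl⟩ := hq
    rw [aeval_X]
    unfold act
    refine Finset.sum_eq_zero fun L _ => Finset.sum_eq_zero fun M _ => ?_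
    apply mul_eq_zero_of_right
    have h0 : kill thr t (⟨x.1, x.2.1, L, M⟩ : s.Ix n) = 0 := if_pos hx
    exact (congrArg g h0).trans (map_zero g)
  | zero => rw [map_zero]
  | add a b _ _ ha hb => rw [map_add, ha, hb, add_zero]
  | smul c a _ ha => rw [smul_eq_mul, map_mul, ha, mul_zero]

/-- Invariants over `K` are combinations of rational ones, so the hypothesis extends to the averages of
all polynomials over `K` (`Rey_mem_span`). -/
theorem hmi_aux3 {K : Type} [Field K] [Algebra ℚ K] (thr : s.β → Prop) (t : s.Ix n → K)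
    (hinv : ∀ p : MvPolynomial (s.Ix n) ℚ, IsInv (redGL n) p → aeval t p = aeval (kill thr t) p)
    (f : MvPolynomial (s.Ix n) K) :
    aeval t (Rey (redGL n) f) = aeval (kill thr t) (Rey (redGL n) f) := by
  have h1 := Rey_mem_span (redGL n) f
  generalize Rey (redGL n) f = r at h1 ⊢
  induction h1 using Submodule.span_induction with
  | mem q hq =>
    obtain ⟨q₀, hq₀, rfl⟩ := hq
    rw [aeval_map_algebraMap, aeval_map_algebraMap]
    exact hinv q₀ hq₀
  | zero => rw [map_zero, map_zero]
  | add a b _ _ ha hb => rw [map_add, map_add, ha, hb]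
  | smul c a _ ha => rw [map_smul, map_smul, ha]

end Pool.Agent.Lib.MP_666dc0_nt.IG
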