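import Pool.Agent.Lib.MP_666dc0_nt.IG.C5a
import Pool.Agent.Lib.MP_666dc0_nt.IG.C5b

open MvPolynomial

namespace Pool.Agent.Lib.MP_666dc0_nt.IG

variable {n : ℕ} {s : Shape}

/-- The ideal of the equations `X X' = 1`, `X' X = 1`. -/
private noncomputable def EE (n : ℕ) (K : Type) [Field K] : Ideal (MvPolynomial (PV n) K) :=
  Ideal.span ({r | ∃ i j, r = (gX n K * gX' n K) i j - (1 : Matrix (Fin n) (Fin n) _) i j} ∪
    {r | ∃ i j, r = (gX' n K * gX n K) i j - (1 : Matrix (Fin n) (Fin n) _) i j})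

private noncomputable def X₀ (n : ℕ) (K : Type) [Field K] :
    Matrix (Fin n) (Fin n) (MvPolynomial (PV n) K ⧸ EE n K) :=
  (gX n K).map (Ideal.Quotient.mk (EE n K))

private noncomputable def X₁ (n : ℕ) (K : Type) [Field K] :
    Matrix (Fin n) (Fin n) (MvPolynomial (PV n) K ⧸ EE n K) :=
  (gX' n K).map (Ideal.Quotient.mk (EE n K))

private theorem X₀_mul_X₁ (n : ℕ) (K : Type) [Field K] : X₀ n K * X₁ n K = 1 := by
  unfold X₀ X₁
  rw [← Matrix.map_mul, ← Matrix.map_one (Ideal.Quotient.mk (EE n K)) (map_zero _) (map_one _)]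
  ext i j
  rw [Matrix.map_apply, Matrix.map_apply, Ideal.Quotient.eq]
  exact Ideal.subset_span (Or.inl ⟨i, j, rfl⟩)

private theorem X₁_mul_X₀ (n : ℕ) (K : Type) [Field K] : X₁ n K * X₀ n K = 1 := by
  unfold X₀ X₁
  rw [← Matrix.map_mul, ← Matrix.map_one (Ideal.Quotient.mk (EE n K)) (map_zero _) (map_one _)]
  ext i j
  rw [Matrix.map_apply, Matrix.map_apply, Ideal.Quotient.eq]
  exact Ideal.subset_span (Or.inr ⟨i, j, rfl⟩)

/-- The universal property of the generic pair of inverse matrices. -/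
private theorem exists_chi {K : Type} [Field K] {B : Type} [CommRing B] [Algebra K B]
    (k k' : Matrix (Fin n) (Fin n) B) (h : k * k' = 1) (h' : k' * k = 1) :
    ∃ χ : (MvPolynomial (PV n) K ⧸ EE n K) →ₐ[K] B, (X₀ n K).map χ = k ∧ (X₁ n K).map χ = k' := by
  have h1 : (gX n K).map (aeval (R := K) (evp k k')) = k := by
    ext i j
    exact aeval_X _ _
  have h2 : (gX' n K).map (aeval (R := K) (evp k k')) = k' := by
    ext i j
    exact aeval_X _ _
  have hE : ∀ a : MvPolynomial (PV n) K, a ∈ EE n K → aeval (R := K) (evp k k') a = 0 := by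
    intro a ha
    have hle : EE n K ≤ RingHom.ker (aeval (R := K) (evp k k')) := by
      unfold EE
      rw [Ideal.span_le]
      rintro r (⟨i, j, rfl⟩ | ⟨i, j, rfl⟩)
      · rw [SetLike.mem_coe, RingHom.mem_ker, map_sub, sub_eq_zero]
        have h3 : ((gX n K * gX' n K).map (aeval (R := K) (evp k k'))) i j =
            ((1 : Matrix (Fin n) (Fin n) (MvPolynomial (PV n) K)).map
              (aeval (R := K) (evp k k'))) i j := by
          rw [Matrix.map_mul, h1, h2, h, Matrix.map_one _ (map_zero _) (map_one _)]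
        exact h3
      · rw [SetLike.mem_coe, RingHom.mem_ker, map_sub, sub_eq_zero]
        have h3 : ((gX' n K * gX n K).map (aeval (R := K) (evp k k'))) i j =
            ((1 : Matrix (Fin n) (Fin n) (MvPolynomial (PV n) K)).map
              (aeval (R := K) (evp k k'))) i j := by
          rw [Matrix.map_mul, h1, h2, h', Matrix.map_one _ (map_zero _) (map_one _)]
        exact h3
    exact hle ha
  refine ⟨Ideal.Quotient.liftₐ (EE n K) (aeval (R := K) (evp k k')) hE, ?_, ?_⟩
  · refine Eq.trans ?_ h1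
    ext i j
    rfl
  · refine Eq.trans ?_ h2
    ext i j
    rfl

/-- C5 (HMI). Let `φ : MvPolynomial (s.Ix n) K →+* B₀ := MvPolynomial (PV n) K ⧸ (entries of XX'-1, X'X-1)`,
`f ↦ f(act X X' t)`. A polynomial in `ker φ` vanishes on the whole orbit (specialise). If
`ker φ + (variables of thr)` were the unit ideal, `1 = f + h`, then `1 = Rey f + Rey h` and
`hmi_aux1`, `hmi_aux2`, `hmi_aux3` give `0 = (Rey f)(t) = (Rey f)(kill t) = 1 - 0`. So there is a maximal
ideal `m` above; `dominate` gives `Ω, V, ψ`; `Ω` is a `K`-algebra via `ψ ∘ φ ∘ C`, `V ⊇ K`, and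
`k := ψ(X)`, `k' := ψ(X')` satisfy the hypotheses of `hilbert_mumford`:
`act k k' t x = ψ (φ (X x))`. -/
theorem hmi [s.Small] {K : Type} [Field K] [CharZero K] [Algebra ℚ K] (thr : s.β → Prop)
    (t : s.Ix n → K)
    (hinv : ∀ p : MvPolynomial (s.Ix n) ℚ, IsInv (redGL n) p → aeval t p = aeval (kill thr t) p) :
    ∃ (κ : Type) (_ : Field κ) (_ : Algebra K κ) (g g' : Matrix (Fin n) (Fin n) κ)
      (lam : Fin n → ℝ), g * g' = 1 ∧ g' * g = 1 ∧
      ∀ x, act g g' (fun y => algebraMap K κ (t y)) x ≠ 0 →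
        0 ≤ wt lam x ∧ (thr x.1 → 1 ≤ wt lam x) := by
  let φ : MvPolynomial (s.Ix n) K →ₐ[K] (MvPolynomial (PV n) K ⧸ EE n K) :=
    aeval (act (X₀ n K) (X₁ n K) (fun y => algebraMap K _ (t y)))
  have hφ : ∀ f, φ f = 0 → ∀ (B : Type) [CommRing B] [Algebra ℚ B] [Algebra K B]
      (k k' : Matrix (Fin n) (Fin n) B), k * k' = 1 → k' * k = 1 →
      aeval (act k k' (fun y => algebraMap K B (t y))) f = 0 := by
    intro f hf B _ _ _ k k' hk hk'
    obtain ⟨χ, h1, h2⟩ := exists_chi (K := K) k k' hk hk'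
    have h3 : act k k' (fun y => algebraMap K B (t y)) = fun x =>
        χ (act (X₀ n K) (X₁ n K) (fun y => algebraMap K _ (t y)) x) := by
      funext x
      have h4 := map_act χ.toRingHom (X₀ n K) (X₁ n K) (fun y => algebraMap K _ (t y)) x
      have h5 : (X₀ n K).map χ.toRingHom = k := h1
      have h6 : (X₁ n K).map χ.toRingHom = k' := h2
      rw [h5, h6] at h4
      refine Eq.trans ?_ h4.symm
      congr 1
      funext y
      exact (χ.commutes (t y)).symm
    rw [h3, ← comp_aeval_apply]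
    exact (congrArg χ hf).trans (map_zero χ)
  let J : Ideal (MvPolynomial (s.Ix n) K) := Ideal.span {p | ∃ x : s.Ix n, thr x.1 ∧ p = X x}
  have hne : RingHom.ker φ.toRingHom ⊔ J ≠ ⊤ := by
    intro htop
    have h1 : (1 : MvPolynomial (s.Ix n) K) ∈
        RingHom.ker φ.toRingHom ⊔ J := by
      rw [htop]; trivial
    obtain ⟨f, hf, h, hh, hfh⟩ := Submodule.mem_sup.mp h1
    have h2 := hmi_aux1 t f (hφ f hf)
    have h3 := hmi_aux2 thr t h hh
    have h4 := hmi_aux3 thr t hinv f
    have h5 : (Rey (redGL n) f + Rey (redGL n) h : MvPolynomial (s.Ix n) K) = 1 := by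
      rw [← Rey_add, hfh, Rey_one]
    have h6 := congrArg (aeval (kill thr t)) h5
    rw [map_add, h3, ← h4, h2, add_zero, map_one] at h6
    exact zero_ne_one h6
  obtain ⟨m, hm, hle⟩ := Ideal.exists_le_maximal _ hne
  haveI := hm.isPrime
  obtain ⟨Ω, _, V, ψ, hV, hVm⟩ := dominate φ.toRingHom m
    (le_sup_left.trans hle)
  letI : Algebra K Ω := (ψ.comp (algebraMap K (MvPolynomial (PV n) K ⧸ EE n K))).toAlgebra
  have hact : ∀ x, act ((X₀ n K).map ψ) ((X₁ n K).map ψ) (fun y => algebraMap K Ω (t y)) x =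
      ψ (φ.toRingHom (X x)) := by
    intro x
    have h4 := map_act ψ (X₀ n K) (X₁ n K) (fun y => algebraMap K _ (t y)) x
    have h5 : φ.toRingHom (X x) =
        act (X₀ n K) (X₁ n K) (fun y => algebraMap K _ (t y)) x := aeval_X _ _
    rw [h5, h4]
    rfl
  refine hilbert_mumford V (fun x => ?_) t thr ((X₀ n K).map ψ) ((X₁ n K).map ψ) ?_ ?_
    (fun x => ?_) (fun x hx => ?_)
  · have h7 : algebraMap K Ω x = ψ (φ.toRingHom (C x)) := by
      have : φ.toRingHom (C x) = algebraMap K _ x := φ.commutes x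
      rw [this]
      rfl
    rw [h7]
    exact hV _
  · rw [← Matrix.map_mul, X₀_mul_X₁, Matrix.map_one _ (map_zero _) (map_one _)]
  · rw [← Matrix.map_mul, X₁_mul_X₀, Matrix.map_one _ (map_zero _) (map_one _)]
  · rw [hact]
    exact hV _
  · rw [hact, hVm]
    exact hle (Ideal.mem_sup_right (Ideal.subset_span ⟨x, hx, rfl⟩))

end Pool.Agent.Lib.MP_666dc0_nt.IG
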