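import Pool.Agent.Lib.MP_666dc0_nt.IG.F0a

open MvPolynomial

namespace Pool.Agent.Lib.MP_666dc0_nt.IG

variable {O : Type} [CommRing O] [HopfAlgebra ℚ O] {Γ : Type} [Group Γ] {A : HopfAction Γ O}
  {n : ℕ} (ρ : MatRep A n)

private def F0c_cond (G : Red n) {S : Type} [CommRing S] [Algebra ℚ S]
    (w : Γ ⊕ Γ → Matrix (Fin n) (Fin n) S) : Prop :=
  (∀ γ δ, w (Sum.inl γ) * w (Sum.inl δ) = w (Sum.inl (γ * δ))) ∧ w (Sum.inl 1) = 1 ∧
    (∀ γ, w (Sum.inl γ) * w (Sum.inr γ) = 1) ∧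
    ∀ γ, G.In S (w (Sum.inl γ) * ρ.pm S γ⁻¹) (ρ.pm S γ * w (Sum.inr γ))

/-- F4. Let `t` be a family of matrices `v_γ, v'_γ` over a field `Ω` such that all rational relations which
hold on the `G`-orbit of the family `z ↦ fam (r z)` (over `Z → K`) hold at `t`. Then `v` is a homomorphism,
`v'_γ = v_{γ⁻¹}`, and `(v γ * pm γ⁻¹, pm γ * v γ⁻¹)` is in `G`. All of these are rational relations
invariant under conjugation: `v_γ v_δ = v_{γδ}`, `v_1 = 1`, `v_γ v'_γ = 1`, and `q(v_γ P γ⁻¹, P γ v'_γ) = 0` for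
`q ∈ G.J`: for `(k, k') ∈ G(E')` and `x = r z γ`: `k ev(x) k' P γ⁻¹ = k (ev(x) P γ⁻¹) (P γ k' P γ⁻¹)` and
`G` is normalised by `P γ` (`in_of_ev`, `in_mul`; `Pts O E'` and `A.onPts`). The ring `Z → K` may be handled
by viewing the family `r z` as one homomorphism `Γ → ᴸG(Z → K)` (`r γ` has the component
`f ↦ (z ↦ (r z γ).left.hom f)`). -/
theorem hom_of_relations {G : Red n} (hG : IsRedG ρ G) {K : Type} [Field K] [Algebra ℚ K]
    {Z : Type} (r : Z → Γ →* A.LGroup K) (hr : ∀ z γ, (r z γ).right = γ) {Ω : Type} [Field Ω]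
    [Algebra ℚ Ω] (v : Γ ⊕ Γ → Matrix (Fin n) (Fin n) Ω)
    (ht : ∀ p : MvPolynomial ((mats (Γ ⊕ Γ)).Ix n) ℚ,
      (∀ (E' : Type) [CommRing E'] [Algebra ℚ E'] [Algebra (Z → K) E']
        (k k' : Matrix (Fin n) (Fin n) E'), G.In E' k k' →
        aeval (act k k' (fun x => algebraMap (Z → K) E' (fun z => toMats (fam ρ (r z)) x))) p = 0) →
      aeval (toMats v) p = 0) :
    ∃ w : Γ →* Matrix (Fin n) (Fin n) Ω, (∀ γ, w γ = v (Sum.inl γ)) ∧
      (∀ γ, w γ⁻¹ = v (Sum.inr γ)) ∧ ∀ γ, G.In Ω (w γ * ρ.pm Ω γ⁻¹) (ρ.pm Ω γ * w γ⁻¹) := by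
  classical
  have hg : ∀ {S : Type} [CommRing S] [Algebra ℚ S] (w : Γ ⊕ Γ → Matrix (Fin n) (Fin n) S)
      (m : Γ ⊕ Γ), (gmat n m).map (aeval (R := ℚ) (toMats w)) = w m := by
    intro S _ _ w m
    ext i j
    exact aeval_X (R := ℚ) (toMats w) (⟨(), m, fun _ => i, fun _ => j⟩ : (mats (Γ ⊕ Γ)).Ix n)
  have hC : ∀ {S : Type} [CommRing S] [Algebra ℚ S] (w : Γ ⊕ Γ → Matrix (Fin n) (Fin n) S)
      (δ : Γ), ((ρ.P δ).map (C : ℚ → MvPolynomial ((mats (Γ ⊕ Γ)).Ix n) ℚ)).map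
      (aeval (R := ℚ) (toMats w)) = ρ.pm S δ := by
    intro S _ _ w δ
    ext i j
    exact aeval_C (R := ℚ) (toMats w) (ρ.P δ i j)
  have key : ∀ (q : MvPolynomial (PV n) ℚ) {S T : Type} [CommRing S] [Algebra ℚ S] [CommRing T]
      [Algebra ℚ T] (φ : S →ₐ[ℚ] T) (U U' : Matrix (Fin n) (Fin n) S),
      φ (aeval (evp U U') q) = aeval (evp (U.map φ) (U'.map φ)) q := by
    intro q S T _ _ _ _ φ U U'
    rw [MvPolynomial.comp_aeval_apply]
    have h3 : (fun i => φ (evp U U' i)) = evp (U.map φ) (U'.map φ) := by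
      funext i
      rcases i with i | i <;> rfl
    rw [h3]
  obtain ⟨M, hM⟩ : ∃ M : Γ ⊕ Γ → Matrix (Fin n) (Fin n) (Z → K),
      M = fun m => Matrix.of fun i j z => fam ρ (r z) m i j := ⟨_, rfl⟩
  have hMz : ∀ (z : Z) (m : Γ ⊕ Γ), (M m).map (fun f : Z → K => f z) = fam ρ (r z) m := by
    intro z m
    rw [hM]
    rfl
  have hMext : ∀ A B : Matrix (Fin n) (Fin n) (Z → K),
      (∀ z, A.map (fun f : Z → K => f z) = B.map (fun f : Z → K => f z)) → A = B := by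
    intro A B h
    ext i j z
    exact congrFun (congrFun (h z) i) j
  have hmapmul : ∀ (z : Z) (A B : Matrix (Fin n) (Fin n) (Z → K)),
      (A * B).map (fun f : Z → K => f z) =
        A.map (fun f : Z → K => f z) * B.map (fun f : Z → K => f z) := by
    intro z A B
    exact Matrix.map_mul (f := Pi.evalRingHom (fun _ : Z => K) z)
  have hmapone : ∀ (z : Z), (1 : Matrix (Fin n) (Fin n) (Z → K)).map (fun f : Z → K => f z) = 1 := by
    intro z
    exact Matrix.map_one (Pi.evalRingHom (fun _ : Z => K) z) (map_zero _) (map_one _)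
  have m1 : ∀ γ δ : Γ, M (Sum.inl γ) * M (Sum.inl δ) = M (Sum.inl (γ * δ)) := by
    intro γ δ
    refine hMext _ _ fun z => ?_
    rw [hmapmul, hMz, hMz, hMz]
    change ρ.ev K (r z γ) * ρ.ev K (r z δ) = ρ.ev K (r z (γ * δ))
    rw [← map_mul, ← map_mul]
  have m2 : M (Sum.inl 1) = 1 := by
    refine hMext _ _ fun z => ?_
    rw [hmapone, hMz]
    change ρ.ev K (r z 1) = 1
    rw [map_one, map_one]
  have m3 : ∀ γ : Γ, M (Sum.inl γ) * M (Sum.inr γ) = 1 := by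
    intro γ
    refine hMext _ _ fun z => ?_
    rw [hmapmul, hmapone, hMz, hMz]
    exact ev_mul_inv ρ (r z γ)
  have hpmz : ∀ (z : Z) (δ : Γ), (ρ.pm (Z → K) δ).map (fun f : Z → K => f z) = ρ.pm K δ := by
    intro z δ
    exact ρ.pm_map (Pi.evalAlgHom ℚ (fun _ : Z => K) z) δ
  have m4 : ∀ γ : Γ, G.In (Z → K) (M (Sum.inl γ) * ρ.pm (Z → K) γ⁻¹)
      (ρ.pm (Z → K) γ * M (Sum.inr γ)) := by
    intro γ q hq
    funext z
    have h1 := key q (Pi.evalAlgHom ℚ (fun _ : Z => K) z) (M (Sum.inl γ) * ρ.pm (Z → K) γ⁻¹)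
      (ρ.pm (Z → K) γ * M (Sum.inr γ))
    refine Eq.trans h1 ?_
    have e1 : (M (Sum.inl γ) * ρ.pm (Z → K) γ⁻¹).map (Pi.evalAlgHom ℚ (fun _ : Z => K) z) =
        ρ.ev K (r z γ) * ρ.pm K γ⁻¹ := by
      refine (hmapmul z _ _).trans ?_
      rw [hMz, hpmz]
      rfl
    have e2 : (ρ.pm (Z → K) γ * M (Sum.inr γ)).map (Pi.evalAlgHom ℚ (fun _ : Z => K) z) =
        ρ.pm K γ * ρ.ev K (r z γ)⁻¹ := by
      refine (hmapmul z _ _).trans ?_
      rw [hMz, hpmz]
      rfl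
    rw [e1, e2]
    have h2 := in_of_ev ρ hG (r z γ)
    rw [hr] at h2
    exact h2 q hq
  have horb : ∀ (E' : Type) [CommRing E'] [Algebra ℚ E'] [Algebra (Z → K) E']
      (k k' : Matrix (Fin n) (Fin n) E'),
      act k k' (fun x => algebraMap (Z → K) E' (fun z => toMats (fam ρ (r z)) x)) =
      toMats (fun m => k * (M m).map (algebraMap (Z → K) E') * k') := by
    intro E' _ _ _ k k'
    rw [← act_toMats]
    have h1 : (fun x : (mats (Γ ⊕ Γ)).Ix n =>
        algebraMap (Z → K) E' (fun z => toMats (fam ρ (r z)) x)) =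
        toMats (fun m => (M m).map (algebraMap (Z → K) E')) := by
      funext x
      rcases x with ⟨u, m, I, J⟩
      rw [hM]
      rfl
    rw [h1]
  have hmain : ∀ p : MvPolynomial ((mats (Γ ⊕ Γ)).Ix n) ℚ,
      (∀ (S : Type) [CommRing S] [Algebra ℚ S] (w : Γ ⊕ Γ → Matrix (Fin n) (Fin n) S),
        F0c_cond ρ G w → aeval (toMats w) p = 0) → aeval (toMats v) p = 0 := by
    intro p hp
    refine ht p fun E' _ _ _ k k' hk => ?_
    rw [horb]
    refine hp E' _ ?_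
    obtain ⟨hkk, hkk'⟩ := G.in_inv E' k k' hk
    have hsc : IsScalarTower ℚ (Z → K) E' := IsScalarTower.of_algebraMap_eq' (RingHom.ext_rat _ _)
    obtain ⟨ψ, hψ⟩ : ∃ ψ : (Z → K) →ₐ[ℚ] E', ∀ f, ψ f = algebraMap (Z → K) E' f :=
      ⟨IsScalarTower.toAlgHom ℚ (Z → K) E', fun f => rfl⟩
    have hmap : ∀ B : Matrix (Fin n) (Fin n) (Z → K), B.map (algebraMap (Z → K) E') = B.map ψ := by
      intro B
      ext i j
      exact (hψ _).symm
    have hmm : ∀ A B : Matrix (Fin n) (Fin n) (Z → K),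
        A.map (algebraMap (Z → K) E') * B.map (algebraMap (Z → K) E') =
          (A * B).map (algebraMap (Z → K) E') := fun A B => Matrix.map_mul.symm
    have hmid : ∀ A B : Matrix (Fin n) (Fin n) (Z → K),
        k * A.map (algebraMap (Z → K) E') * k' * (k * B.map (algebraMap (Z → K) E') * k') =
          k * (A * B).map (algebraMap (Z → K) E') * k' := by
      intro A B
      rw [← hmm]
      calc k * A.map (algebraMap (Z → K) E') * k' * (k * B.map (algebraMap (Z → K) E') * k')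
          = k * A.map (algebraMap (Z → K) E') * (k' * k) * B.map (algebraMap (Z → K) E') * k' := by
            simp only [mul_assoc]
        _ = _ := by rw [hkk', mul_one]; simp only [mul_assoc]
    have hone : k * (1 : Matrix (Fin n) (Fin n) (Z → K)).map (algebraMap (Z → K) E') * k' = 1 := by
      rw [Matrix.map_one _ (map_zero _) (map_one _), mul_one, hkk]
    refine ⟨fun γ δ => ?_, ?_, fun γ => ?_, fun γ => ?_⟩
    · change k * (M (Sum.inl γ)).map (algebraMap (Z → K) E') * k' *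
        (k * (M (Sum.inl δ)).map (algebraMap (Z → K) E') * k') = _
      rw [hmid, m1]
    · change k * (M (Sum.inl 1)).map (algebraMap (Z → K) E') * k' = 1
      rw [m2, hone]
    · change k * (M (Sum.inl γ)).map (algebraMap (Z → K) E') * k' *
        (k * (M (Sum.inr γ)).map (algebraMap (Z → K) E') * k') = 1
      rw [hmid, m3, hone]
    · change G.In E' (k * (M (Sum.inl γ)).map (algebraMap (Z → K) E') * k' * ρ.pm E' γ⁻¹)
        (ρ.pm E' γ * (k * (M (Sum.inr γ)).map (algebraMap (Z → K) E') * k'))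
      have i1 : G.In E' ((M (Sum.inl γ)).map (algebraMap (Z → K) E') * ρ.pm E' γ⁻¹)
          (ρ.pm E' γ * (M (Sum.inr γ)).map (algebraMap (Z → K) E')) := by
        intro q hq
        have h1 := key q ψ (M (Sum.inl γ) * ρ.pm (Z → K) γ⁻¹) (ρ.pm (Z → K) γ * M (Sum.inr γ))
        rw [m4 γ q hq, map_zero, Matrix.map_mul, Matrix.map_mul, MatRep.pm_map, MatRep.pm_map,
          ← hmap, ← hmap] at h1
        exact h1.symm
      obtain ⟨x, hx, hx'⟩ := (hG E' k' k).1 (G.in_symm E' k k' hk)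
      have hP1 : ρ.pm E' γ * ρ.pm E' γ⁻¹ = 1 := ρ.pm_mul_pm_inv γ
      have hP2 : ρ.pm E' γ⁻¹ * ρ.pm E' γ = 1 := ρ.pm_inv_mul_pm γ
      have i2 : G.In E' (ρ.pm E' γ * k' * ρ.pm E' γ⁻¹) (ρ.pm E' γ * k * ρ.pm E' γ⁻¹) := by
        refine (hG E' _ _).2 ⟨A.onPts E' γ x, ?_, ?_⟩
        · rw [← hx, ρ.pm_mul_gm, mul_assoc, hP1, mul_one]
        · rw [← map_inv, ← hx', ρ.pm_mul_gm, mul_assoc, hP1, mul_one]
      have i3 := G.in_mul E' _ _ _ _ (G.in_mul E' _ _ _ _ hk i1) i2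
      have e1 : k * ((M (Sum.inl γ)).map (algebraMap (Z → K) E') * ρ.pm E' γ⁻¹) *
          (ρ.pm E' γ * k' * ρ.pm E' γ⁻¹) =
          k * (M (Sum.inl γ)).map (algebraMap (Z → K) E') * k' * ρ.pm E' γ⁻¹ := by
        calc k * ((M (Sum.inl γ)).map (algebraMap (Z → K) E') * ρ.pm E' γ⁻¹) *
            (ρ.pm E' γ * k' * ρ.pm E' γ⁻¹)
            = k * (M (Sum.inl γ)).map (algebraMap (Z → K) E') * (ρ.pm E' γ⁻¹ * ρ.pm E' γ) * k' *
              ρ.pm E' γ⁻¹ := by simp only [mul_assoc]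
          _ = _ := by rw [hP2, mul_one]
      have e2 : ρ.pm E' γ * k * ρ.pm E' γ⁻¹ *
          (ρ.pm E' γ * (M (Sum.inr γ)).map (algebraMap (Z → K) E') * k') =
          ρ.pm E' γ * (k * (M (Sum.inr γ)).map (algebraMap (Z → K) E') * k') := by
        calc ρ.pm E' γ * k * ρ.pm E' γ⁻¹ *
            (ρ.pm E' γ * (M (Sum.inr γ)).map (algebraMap (Z → K) E') * k')
            = ρ.pm E' γ * k * (ρ.pm E' γ⁻¹ * ρ.pm E' γ) *
              (M (Sum.inr γ)).map (algebraMap (Z → K) E') * k' := by simp only [mul_assoc]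
          _ = _ := by rw [hP2, mul_one]; simp only [mul_assoc]
      rw [e1, e2] at i3
      exact i3
  -- relations between matrices
  have hrel : ∀ (A B : Matrix (Fin n) (Fin n) (MvPolynomial ((mats (Γ ⊕ Γ)).Ix n) ℚ)),
      (∀ (S : Type) [CommRing S] [Algebra ℚ S] (w : Γ ⊕ Γ → Matrix (Fin n) (Fin n) S),
        F0c_cond ρ G w → A.map (aeval (R := ℚ) (toMats w)) = B.map (aeval (R := ℚ) (toMats w))) →
      A.map (aeval (R := ℚ) (toMats v)) = B.map (aeval (R := ℚ) (toMats v)) := by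
    intro A B h
    ext i j
    have h1 := hmain (A i j - B i j) fun S _ _ w hw => by
      rw [map_sub, sub_eq_zero]
      exact congrFun (congrFun (h S w hw) i) j
    rw [map_sub, sub_eq_zero] at h1
    exact h1
  have r1 : ∀ γ δ, v (Sum.inl γ) * v (Sum.inl δ) = v (Sum.inl (γ * δ)) := by
    intro γ δ
    have h1 := hrel (gmat n (Sum.inl γ) * gmat n (Sum.inl δ)) (gmat n (Sum.inl (γ * δ)))
      fun S _ _ w hw => by
        rw [Matrix.map_mul, hg, hg, hg]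
        exact hw.1 γ δ
    rwa [Matrix.map_mul, hg, hg, hg] at h1
  have r2 : v (Sum.inl 1) = 1 := by
    have h1 := hrel (gmat n (Sum.inl 1)) 1 fun S _ _ w hw => by
      rw [hg, Matrix.map_one _ (map_zero _) (map_one _)]
      exact hw.2.1
    rwa [hg, Matrix.map_one _ (map_zero _) (map_one _)] at h1
  have r3 : ∀ γ, v (Sum.inl γ) * v (Sum.inr γ) = 1 := by
    intro γ
    have h1 := hrel (gmat n (Sum.inl γ) * gmat n (Sum.inr γ)) 1 fun S _ _ w hw => by
      rw [Matrix.map_mul, hg, hg, Matrix.map_one _ (map_zero _) (map_one _)]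
      exact hw.2.2.1 γ
    rwa [Matrix.map_mul, hg, hg, Matrix.map_one _ (map_zero _) (map_one _)] at h1
  have r4 : ∀ γ, G.In Ω (v (Sum.inl γ) * ρ.pm Ω γ⁻¹) (ρ.pm Ω γ * v (Sum.inr γ)) := by
    intro γ q hq
    have h0 : ∀ {S : Type} [CommRing S] [Algebra ℚ S] (w : Γ ⊕ Γ → Matrix (Fin n) (Fin n) S),
        aeval (toMats w) (aeval (evp (gmat n (Sum.inl γ) * (ρ.P γ⁻¹).map C)
          ((ρ.P γ).map C * gmat n (Sum.inr γ))) q) =
          aeval (evp (w (Sum.inl γ) * ρ.pm S γ⁻¹) (ρ.pm S γ * w (Sum.inr γ))) q := by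
      intro S _ _ w
      rw [key q (aeval (toMats w)), Matrix.map_mul, Matrix.map_mul, hg, hg, hC, hC]
    rw [← h0]
    refine hmain _ fun S _ _ w hw => ?_
    rw [h0]
    exact hw.2.2.2 γ q hq
  have r5 : ∀ γ : Γ, v (Sum.inl γ⁻¹) = v (Sum.inr γ) := by
    intro γ
    calc v (Sum.inl γ⁻¹) = v (Sum.inl γ⁻¹) * (v (Sum.inl γ) * v (Sum.inr γ)) := by
          rw [r3, mul_one]
      _ = v (Sum.inr γ) := by rw [← mul_assoc, r1, inv_mul_cancel, r2, one_mul]
  refine ⟨⟨⟨fun γ => v (Sum.inl γ), r2⟩, fun γ δ => (r1 γ δ).symm⟩, fun γ => rfl, fun γ => r5 γ,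
    fun γ => ?_⟩
  change G.In Ω (v (Sum.inl γ) * ρ.pm Ω γ⁻¹) (ρ.pm Ω γ * v (Sum.inl γ⁻¹))
  rw [r5]
  exact r4 γ

end Pool.Agent.Lib.MP_666dc0_nt.IG
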