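import Pool.Agent.Lib.MP_666dc0_nt.Mg.G039
import Pool.Agent.Lib.MP_666dc0_nt.IG.F0c

open MvPolynomial

namespace Pool.Agent.Lib.MP_666dc0_nt.IG

variable {O : Type} [CommRing O] [HopfAlgebra ℚ O] {Γ : Type} [Group Γ] {A : HopfAction Γ O}
  {n : ℕ} (ρ : MatRep A n)

/-- F5. There is a point with the right values over some extension field. `B' , y'` from `extend_integral`;
`lift_point` for the shape `mats (Γ ⊕ Γ)`, `E = Z → K`, `τ = (z ↦ toMats (fam (r z)))`;
`hom_of_relations`, `exists_hom`; for the values use the invariant polynomials `exists_polyG` for `f ∈ inv γ`,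
renamed by `Bool → Γ ⊕ Γ`, `false ↦ inl γ`, `true ↦ inr γ` (`aeval_rename_ixMap`). -/
theorem exists_point {G : Red n} (hG : IsRedG ρ G) (hρ : Faithful ρ) (TD : TensorData G) {K : Type}
    [Field K] [IsAlgClosed K] [CharZero K] [Algebra ℚ K] {Z : Type} (r : Z → Γ →* A.LGroup K)
    (hr : ∀ z γ, (r z γ).right = γ) (B : Subalgebra ℚ (Z → K))
    (hB : ∀ γ, ∀ f ∈ A.inv γ, (fun z => (r z γ).left.hom f) ∈ B) (y : B →+* K) (V : Γ → O → K)
    (hV : ∀ γ f (hf : f ∈ A.inv γ), V γ f = y ⟨_, hB γ f hf⟩) :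
    ∃ (Ω : Type) (_ : Field Ω) (_ : Algebra ℚ Ω) (_ : Algebra K Ω) (r' : Γ →* A.LGroup Ω),
      HasVal A V Ω r' := by
  -- the invariant polynomial functions are integral
  let τ : (mats (Γ ⊕ Γ)).Ix n → (Z → K) := fun x z => toMats (fam ρ (r z)) x
  have hτ : ∀ p : MvPolynomial ((mats (Γ ⊕ Γ)).Ix n) ℚ,
      aeval τ p = fun z => aeval (toMats (fam ρ (r z))) p := by
    intro p
    funext z
    have h1 := MvPolynomial.comp_aeval_apply (R := ℚ) τ (Pi.evalAlgHom ℚ (fun _ : Z => K) z) p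
    exact h1
  obtain ⟨B', y', hB', hy'⟩ := extend_integral B.toSubring (show B.toSubring →+* K from y)
  have hB'' : ∀ p : MvPolynomial ((mats (Γ ⊕ Γ)).Ix n) ℚ, IsInv G p → aeval τ p ∈ B' := by
    intro p hp
    rw [hτ p]
    exact hB' _ (integral_fam ρ hG TD r hr B hB p hp)
  obtain ⟨Ω, i1, i2, i3, t, ht1, ht2⟩ := lift_point G τ B' y' hB''
  obtain ⟨v, rfl⟩ := exists_toMats t
  obtain ⟨w, hw1, hw2, hw3⟩ := hom_of_relations ρ hG r hr v ht2
  obtain ⟨r', hr', hev⟩ := exists_hom ρ hG hρ w hw3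
  refine ⟨Ω, i1, i2, i3, r', hr', fun γ f hf => ?_⟩
  obtain ⟨p, hp, hpf⟩ := exists_polyG ρ hG hρ γ f hf
  let i : Bool → Γ ⊕ Γ := fun b => match b with | false => Sum.inl γ | true => Sum.inr γ
  have hq : IsInv G (rename (ixMap (n := n) i) p) := by
    intro R _ _ k k' hk u
    obtain ⟨u, rfl⟩ := exists_toMats u
    rw [act_toMats, aeval_rename_ixMap, aeval_rename_ixMap, ← act_toMats]
    exact hp R k k' hk _
  have h1 := ht1 _ hq
  have h2 : aeval (toMats v) (rename (ixMap i) p) = (r' γ).left.hom f := by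
    rw [aeval_rename_ixMap, ← hpf Ω (r' γ) (hr' γ)]
    congr 1
    congr 2
    funext b
    cases b with
    | false => exact (hw1 γ).symm.trans (hev γ).symm
    | true =>
      rw [← map_inv]
      exact (hw2 γ).symm.trans (hev γ⁻¹).symm
  have h3 : aeval τ (rename (ixMap i) p) = fun z => (r z γ).left.hom f := by
    rw [hτ]
    funext z
    rw [aeval_rename_ixMap, ← hpf K (r z γ) (hr z γ)]
    congr 1
    congr 2
    funext b
    cases b with
    | false => rfl
    | true => rfl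
  rw [← h2, h1, hV γ f hf]
  congr 1
  have h5 : (fun z => (r z γ).left.hom f) ∈ B' := by
    rw [← h3]
    exact hB'' _ hq
  have h4 := hy' ⟨_, hB γ f hf⟩ h5
  refine Eq.trans ?_ h4
  congr 1
  exact Subtype.ext h3

end Pool.Agent.Lib.MP_666dc0_nt.IG
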