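import Pool.Agent.Lib.MP_666dc0_nt.IG.F0d
import Pool.Agent.Lib.MP_666dc0_nt.Mg.G041
import Pool.Agent.Lib.MP_666dc0_nt.Mg.G044
import Pool.Agent.Lib.MP_666dc0_nt.Mg.G045
import Pool.Agent.Lib.MP_666dc0_nt.Mg.G040

open MvPolynomial

namespace Pool.Agent.Lib.MP_666dc0_nt.IG

variable {O : Type} [CommRing O] [HopfAlgebra ℚ O] {Γ : Type} [Group Γ] {A : HopfAction Γ O}
  {n : ℕ} (ρ : MatRep A n)

/-- The core theorem. -/
theorem core {G : Red n} (hG : IsRedG ρ G) (hρ : Faithful ρ) (TD : TensorData G)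
    (hfin : (Set.range A.act).Finite) {K : Type} [Field K] [IsAlgClosed K] [CharZero K]
    [Algebra ℚ K] {Z : Type} (r : Z → Γ →* A.LGroup K)
    (hr : ∀ z γ, (r z γ).right = γ) (B : Subalgebra ℚ (Z → K))
    (hB : ∀ γ, ∀ f ∈ A.inv γ, (fun z => (r z γ).left.hom f) ∈ B) (y : B →+* K) (V : Γ → O → K)
    (hV : ∀ γ f (hf : f ∈ A.inv γ), V γ f = y ⟨_, hB γ f hf⟩) :
    ∃ (N : ℕ) (e : Fin N → Γ) (Gi : Matrix (Fin N) (Fin N) K) (r' : Γ →* A.LGroup K),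
      sg ρ V e Gi 1 = 1 ∧ (∀ γ δ, sg ρ V e Gi (γ * δ) = sg ρ V e Gi γ * sg ρ V e Gi δ) ∧
      HasVal A V K r' ∧ ∀ i j, (fun γ => ρ.ev K (r' γ) i j) ∈ FK A (sg ρ V e Gi) := by
  obtain ⟨Ω, _, _, _, r₁, hclosed, hmin⟩ := exists_min ρ (exists_point ρ hG hρ TD r hr B hB y V hV)
  obtain ⟨N, e, Gi, hGi, h1, hmul, hnil⟩ := exists_sigma ρ hmin.val
  have h2 := entries_mem ρ hG hρ TD hmin e Gi hGi h1 hmul hnil
  have h3 := entries_mem_span ρ hfin r₁ (sg ρ V e Gi) h1 hmul h2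
  obtain ⟨r', hr', hmem⟩ := descend ρ hG hρ hmin.val (FK A (sg ρ V e Gi)) h3
  exact ⟨N, e, Gi, r', h1, hmul, hr', hmem⟩

end Pool.Agent.Lib.MP_666dc0_nt.IG
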