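import Pool.Agent.Lib.MP_666dc0_nt.Mg.G046
import Pool.Agent.Lib.MP_666dc0_nt.Mg.G042

open Polynomial

namespace Pool.Agent.Lib.MP_666dc0_nt.IG

variable {O : Type} [CommRing O] [HopfAlgebra ℚ O] {Γ : Type} [Group Γ] {A : HopfAction Γ O}
  {n : ℕ} (ρ : MatRep A n)

private lemma J14b_order (hfin : (Set.range A.act).Finite) (γ : Γ) :
    ∃ m : ℕ, m ≠ 0 ∧ A.act (γ ^ m) = 1 := by
  have h1 : Finite A.act.range := by
    have h3 : Set.range A.act = (A.act.range : Set (O ≃ₐ[ℚ] O)) := by ext; simp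
    rw [h3] at hfin
    exact hfin
  obtain ⟨g, hg⟩ : ∃ g : A.act.range, (g : O ≃ₐ[ℚ] O) = A.act γ := ⟨⟨A.act γ, ⟨γ, rfl⟩⟩, rfl⟩
  refine ⟨orderOf g, (orderOf_pos g).ne', ?_⟩
  have h2 : ((g ^ orderOf g : A.act.range) : O ≃ₐ[ℚ] O) = 1 := by
    rw [pow_orderOf_eq_one]; rfl
  rw [map_pow, ← hg, ← h2]
  rfl

/-- J5. Semisimplicity. -/
theorem isSemisimpleElt_of_DG (hρ : Faithful ρ) (hfin : (Set.range A.act).Finite) {K : Type}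
    [Field K] [CharZero K] [Algebra ℚ K] {N : ℕ}
    (hst : ∀ Φ : Set O, Φ.Finite → ∃ Φ' : Set O, Φ'.Finite ∧ Φ ⊆ Φ' ∧ ∀ γ, ∀ f ∈ Φ', A.act γ f ∈ Φ')
    (σ : Γ → Matrix (Fin N) (Fin N) K) (h1 : σ 1 = 1) (hmul : ∀ γ δ, σ (γ * δ) = σ γ * σ δ)
    (r : Γ →* A.LGroup K) (hr : ∀ γ, (r γ).right = γ)
    (hent : ∀ i j, (fun γ => ρ.ev K (r γ) i j) ∈ FK A σ) {γ : Γ} (hd : DG (σ γ)) :
    A.IsSemisimpleElt (r γ) := by
  obtain ⟨m, hm, hact⟩ := J14b_order hfin γ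
  apply isSemisimpleElt_of_squarefree hst
  intro n' ρ''
  apply DG.exists_squarefree hm
  apply DG_of_mem_EXP
  intro i j
  have h2 := value_mem_EXP ρ hρ σ h1 hmul r hr hent hact (DG_pow σ h1 hmul hd m) (ρ''.a i j)
  have h3 : (fun a : ℕ => ((ρ''.ev K (r γ) ^ m) ^ a) i j) =
      fun a : ℕ => (r ((γ ^ m) ^ a)).left.hom (ρ''.a i j) := by
    funext a
    rw [← map_pow, ← map_pow, ← map_pow, ← map_pow]
    rw [MatRep.ev_apply, hr, ρ''.pm_one (by rw [map_pow, hact, one_pow]), mul_one]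
    rfl
  rw [h3]
  exact h2

end Pool.Agent.Lib.MP_666dc0_nt.IG
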